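import Mathlib

set_option autoImplicit false

open MeasureTheory

namespace Pool.Agent.Cantor305

/-- the average of `f` over a finite type -/
noncomputable def A {α : Type} [Fintype α] (f : α → ℝ) : ℝ := (∑ a, f a) / Fintype.card α

section

variable {α : Type} [Fintype α]

theorem A_add (f g : α → ℝ) : A (fun a => f a + g a) = A f + A g := by
  unfold A; rw [Finset.sum_add_distrib, add_div]

theorem A_mul (c : ℝ) (f : α → ℝ) : A (fun a => c * f a) = c * A f := by
  unfold A; rw [← Finset.mul_sum, mul_div_assoc]

theorem A_sub (f g : α → ℝ) : A (fun a => f a - g a) = A f - A g := by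
  unfold A; rw [Finset.sum_sub_distrib, sub_div]

theorem A_sum {ι : Type} (s : Finset ι) (f : ι → α → ℝ) :
    A (fun a => ∑ i ∈ s, f i a) = ∑ i ∈ s, A (f i) := by
  unfold A; rw [Finset.sum_comm, Finset.sum_div]

theorem A_mono {f g : α → ℝ} (h : ∀ a, f a ≤ g a) : A f ≤ A g := by
  unfold A
  exact div_le_div_of_nonneg_right (Finset.sum_le_sum fun a _ => h a) (Nat.cast_nonneg _)

theorem A_nonneg {f : α → ℝ} (h : ∀ a, 0 ≤ f a) : 0 ≤ A f := by
  unfold A
  exact div_nonneg (Finset.sum_nonneg fun a _ => h a) (Nat.cast_nonneg _)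

theorem A_const [Nonempty α] (c : ℝ) : A (fun _ : α => c) = c := by
  unfold A
  have : (Fintype.card α : ℝ) ≠ 0 := by exact_mod_cast Fintype.card_ne_zero
  rw [Finset.sum_const, Finset.card_univ, nsmul_eq_mul]
  field_simp

theorem A_bool (f : Bool × α → ℝ) :
    A f = (A (fun a => f (false, a)) + A (fun a => f (true, a))) / 2 := by
  unfold A
  rw [Fintype.sum_prod_type, Fintype.sum_bool, Fintype.card_prod, Fintype.card_bool]
  push_cast
  rw [← add_div, div_div, add_comm, mul_comm]

theorem A_pi {ι : Type} [Fintype ι] [DecidableEq ι] (g : ι → α → ℝ) :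
    A (fun c : ι → α => ∏ i, g i (c i)) = ∏ i, A (g i) := by
  unfold A
  rw [Finset.prod_div_distrib, Finset.prod_univ_sum, Fintype.piFinset_univ]
  simp

theorem A_marg {ι : Type} [Fintype ι] [DecidableEq ι] [Nonempty α] (i : ι) (g : α → ℝ) :
    A (fun c : ι → α => g (c i)) = A g := by
  have h := A_pi (fun j : ι => if j = i then g else fun _ => 1)
  have h1 : (fun c : ι → α => ∏ j, (if j = i then g else fun _ => (1 : ℝ)) (c j)) =
      fun c : ι → α => g (c i) := by
    ext c
    rw [Finset.prod_eq_single i]
    · simp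
    · intro j _ hj; simp [hj]
    · intro h; exact absurd (Finset.mem_univ i) h
  rw [h1, Finset.prod_eq_single i] at h
  · rw [h]; simp
  · intro j _ hj
    rw [if_neg hj]; exact A_const 1
  · intro h; exact absurd (Finset.mem_univ i) h

theorem A_marg2 {ι : Type} [Fintype ι] [DecidableEq ι] [Nonempty α] {i j : ι} (hij : i ≠ j)
    (g h : α → ℝ) : A (fun c : ι → α => g (c i) * h (c j)) = A g * A h := by
  have hp := A_pi (fun l : ι => if l = i then g else if l = j then h else fun _ => 1)
  have key : ∀ (u : ι → ℝ), (∀ l, l ≠ i → l ≠ j → u l = 1) → ∏ l, u l = u i * u j := by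
    intro u hu
    rw [← Finset.prod_subset (Finset.subset_univ {i, j})]
    · rw [Finset.prod_pair hij]
    · intro l _ hl
      simp only [Finset.mem_insert, Finset.mem_singleton, not_or] at hl
      exact hu l hl.1 hl.2
  rw [key] at hp
  · have h1 : (fun c : ι → α => ∏ l, (if l = i then g else if l = j then h else fun _ => (1 : ℝ))
        (c l)) = fun c : ι → α => g (c i) * h (c j) := by
      ext c
      rw [key]
      · simp [hij.symm]
      · intro l h1 h2; simp [h1, h2]
    rw [h1] at hp
    rw [hp]
    simp [hij.symm]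
  · intro l h1 h2
    rw [if_neg h1, if_neg h2]; exact A_const 1

theorem A_integral {β : Type} [MeasurableSpace β] {μ : Measure β} {f : α → β → ℝ}
    (h : ∀ a, Integrable (f a) μ) : ∫ y, A (fun a => f a y) ∂μ = A (fun a => ∫ y, f a y ∂μ) := by
  unfold A
  rw [integral_div, integral_finsetSum _ fun a _ => h a]

theorem A_integrable {β : Type} [MeasurableSpace β] {μ : Measure β} {f : α → β → ℝ}
    (h : ∀ a, Integrable (f a) μ) : Integrable (fun y => A (fun a => f a y)) μ := by
  unfold A
  exact (integrable_finsetSum _ fun a _ => h a).div_const _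

theorem A_measurable {β : Type} [MeasurableSpace β] {f : α → β → ℝ}
    (h : ∀ a, Measurable (f a)) : Measurable (fun y => A (fun a => f a y)) := by
  unfold A
  exact (Finset.measurable_fun_sum _ fun a _ => h a).div_const _

end

end Pool.Agent.Cantor305
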