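import Pool.Agent.Cantor305.Rand

set_option autoImplicit false

open MeasureTheory Set

namespace Pool.Agent.Cantor305

/-- the mean number of tubes -/
noncomputable def mN (n : ℕ) (x y : ℝ) : ℝ := A (fun c : Cfg n => N n c x y)

/-- the mean number of tubes in the `d`-th child -/
noncomputable def md (n : ℕ) (x y : ℝ) (d : Fin 3) : ℝ :=
  A (fun q : Bool × Cfg n => N n q.2 x (3 * y - (d : ℕ) - bt q.1 * x))

theorem md_eq (n : ℕ) (x y : ℝ) (d : Fin 3) :
    md n x y d = (mN n x (3 * y - (d : ℕ)) + mN n x (3 * y - 2 * x - (d : ℕ))) / 2 := by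
  unfold md mN
  rw [A_bool]
  have e : (3 : ℝ) * y - 2 * x - ((d : ℕ) : ℝ) = 3 * y - (d : ℕ) - 2 * x := by ring
  rw [e]
  simp [bt]

theorem mN_nonneg (n : ℕ) (x y : ℝ) : 0 ≤ mN n x y := A_nonneg fun c => N_nonneg n c x y

theorem md_nonneg (n : ℕ) (x y : ℝ) (d : Fin 3) : 0 ≤ md n x y d :=
  A_nonneg fun _ => N_nonneg n _ _ _

theorem mN_rec (n : ℕ) (x y : ℝ) : mN (n + 1) x y = ∑ d : Fin 3, md n x y d := by
  have h : mN (n + 1) x y = A (fun c : Fin 3 → Bool × Cfg n => ∑ d : Fin 3,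
      N n (c d).2 x (3 * y - (d : ℕ) - bt (c d).1 * x)) := rfl
  rw [h, A_sum Finset.univ (fun (d : Fin 3) (c : Fin 3 → Bool × Cfg n) =>
    N n (c d).2 x (3 * y - (d : ℕ) - bt (c d).1 * x))]
  refine Finset.sum_congr rfl fun d _ => ?_
  exact A_marg d (fun q : Bool × Cfg n => N n q.2 x (3 * y - (d : ℕ) - bt q.1 * x))

/-- the children integers `3 j + d` -/
theorem mN_sum_le : ∀ (n : ℕ) (x y : ℝ) (J : Finset ℤ), ∑ j ∈ J, mN n x (y - j) ≤ 1
  | 0, x, y, J => by
    have h0 : ∀ j : ℤ, mN 0 x (y - j) = if j = ⌊y⌋ then 1 else 0 := by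
      intro j
      have h1 : mN 0 x (y - j) = indicator (Ico (0 : ℝ) 1) (fun _ => (1 : ℝ)) (y - j) := by
        unfold mN
        haveI := cfgNonempty 0
        have : (fun c : Cfg 0 => N 0 c x (y - j)) =
            fun _ => indicator (Ico (0 : ℝ) 1) (fun _ => (1 : ℝ)) (y - j) := by
          ext c; rfl
        rw [this, A_const]
      rw [h1]
      by_cases h : j = ⌊y⌋
      · rw [if_pos h, indicator_of_mem]
        subst h
        exact ⟨by linarith [Int.floor_le y], by linarith [Int.lt_floor_add_one y]⟩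
      · rw [if_neg h, indicator_of_notMem]
        rintro ⟨h2, h3⟩
        apply h
        symm
        rw [Int.floor_eq_iff]
        exact ⟨by linarith, by linarith⟩
    rw [Finset.sum_congr rfl fun j _ => h0 j, Finset.sum_ite_eq']
    split_ifs <;> norm_num
  | n + 1, x, y, J => by
    have hinj : Set.InjOn (fun p : ℤ × Fin 3 => 3 * p.1 + ((p.2 : ℕ) : ℤ))
        (J ×ˢ (Finset.univ : Finset (Fin 3)) : Finset (ℤ × Fin 3)) := by
      rintro ⟨j, d⟩ _ ⟨j', d'⟩ _ h
      have hd := d.2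
      have hd' := d'.2
      simp only at h
      have h1 : j = j' := by omega
      have h2 : (d : ℕ) = d' := by omega
      exact Prod.ext h1 (Fin.ext h2)
    have key : ∀ z : ℝ, ∑ j ∈ J, ∑ d : Fin 3, mN n x (z - 3 * j - ((d : ℕ) : ℝ)) ≤ 1 := by
      intro z
      have h1 := mN_sum_le n x z ((J ×ˢ (Finset.univ : Finset (Fin 3))).image
        (fun p : ℤ × Fin 3 => 3 * p.1 + ((p.2 : ℕ) : ℤ)))
      rw [Finset.sum_image hinj, Finset.sum_product] at h1
      refine le_trans (le_of_eq ?_) h1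
      refine Finset.sum_congr rfl fun j _ => Finset.sum_congr rfl fun d _ => ?_
      congr 1
      push_cast
      ring
    have h2 : ∀ j : ℤ, mN (n + 1) x (y - j) =
        ((∑ d : Fin 3, mN n x (3 * y - 3 * j - ((d : ℕ) : ℝ))) +
          ∑ d : Fin 3, mN n x ((3 * y - 2 * x) - 3 * j - ((d : ℕ) : ℝ))) / 2 := by
      intro j
      rw [mN_rec, ← Finset.sum_add_distrib, Finset.sum_div]
      refine Finset.sum_congr rfl fun d _ => ?_
      rw [md_eq]
      congr 3 <;> ring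
    rw [Finset.sum_congr rfl fun j _ => h2 j, ← Finset.sum_div, Finset.sum_add_distrib]
    have h3 := key (3 * y)
    have h4 := key (3 * y - 2 * x)
    linarith

theorem mN_le (n : ℕ) (x y : ℝ) : mN n x y ≤ 1 := by
  have := mN_sum_le n x y {0}
  simpa using this

theorem md_le (n : ℕ) (x y : ℝ) (d : Fin 3) : md n x y d ≤ 1 := by
  rw [md_eq]
  have := mN_le n x (3 * y - (d : ℕ))
  have := mN_le n x (3 * y - 2 * x - (d : ℕ))
  linarith

theorem md_supp (n : ℕ) {x y : ℝ} (hx : 0 ≤ x) {d : Fin 3} (h : md n x y d ≠ 0) :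
    ((d : ℕ) : ℝ) ≤ 3 * y ∧ 3 * y < (d : ℕ) + 1 + 3 * x := by
  by_contra hcon
  apply h
  unfold md
  have : (fun q : Bool × Cfg n => N n q.2 x (3 * y - (d : ℕ) - bt q.1 * x)) = fun _ => 0 := by
    ext q
    by_contra h1
    have h2 := N_supp n q.2 hx h1
    have hb := bt_nonneg q.1
    have hb2 := bt_le q.1
    have h3 : 0 ≤ bt q.1 * x := by positivity
    have h4 : bt q.1 * x ≤ 2 * x := mul_le_mul_of_nonneg_right hb2 hx
    exact hcon ⟨by linarith [h2.1], by linarith [h2.2]⟩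
  rw [this, A_const]

theorem md_mul_le (n : ℕ) {x : ℝ} (hx : 0 ≤ x) {d e : Fin 3} (hde : (d : ℕ) < e) (y : ℝ) :
    md n x y d * md n x y e ≤
      indicator (Icc (((e : ℕ) : ℝ) / 3) (((e : ℕ) : ℝ) / 3 + x)) (fun _ => (1 : ℝ)) y := by
  by_cases h : md n x y d = 0 ∨ md n x y e = 0
  · have h0 : md n x y d * md n x y e = 0 := by rcases h with h | h <;> simp [h]
    rw [h0]
    exact indicator_nonneg (fun _ _ => zero_le_one) _
  · push Not at h
    have h1 := md_supp n hx h.1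
    have h2 := md_supp n hx h.2
    have h3 : ((d : ℕ) : ℝ) + 1 ≤ (e : ℕ) := by exact_mod_cast hde
    rw [indicator_of_mem]
    · exact mul_le_one₀ (md_le n x y d) (md_nonneg n x y e) (md_le n x y e)
    · exact ⟨by linarith [h2.1], by linarith [h1.2]⟩

/-- the children of a configuration -/
noncomputable def Nd (n : ℕ) (x y : ℝ) (d : Fin 3) (q : Bool × Cfg n) : ℝ :=
  N n q.2 x (3 * y - (d : ℕ) - bt q.1 * x)

theorem Nd_int (n : ℕ) {x : ℝ} (hx : 0 ≤ x) (d : Fin 3) (q : Bool × Cfg n) :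
    Integrable (fun y => Nd n x y d q) := by
  have := cov_int (N_int n q.2 hx) ((d : ℕ) + bt q.1 * x)
  refine this.congr (Filter.Eventually.of_forall fun y => ?_)
  show _ = N n q.2 x (3 * y - (d : ℕ) - bt q.1 * x)
  congr 1
  ring

theorem Nd_nonneg (n : ℕ) (x y : ℝ) (d : Fin 3) (q : Bool × Cfg n) : 0 ≤ Nd n x y d q :=
  N_nonneg n _ _ _

theorem Nd_le (n : ℕ) (x y : ℝ) (d : Fin 3) (q : Bool × Cfg n) : Nd n x y d q ≤ 3 ^ n :=
  N_bdd n _ _ _

theorem Nd_mul_int (n : ℕ) {x : ℝ} (hx : 0 ≤ x) (d e : Fin 3) (q r : Bool × Cfg n) :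
    Integrable (fun y => Nd n x y d q * Nd n x y e r) := by
  apply (Nd_int n hx d q).mul_bdd (c := 3 ^ n) (Nd_int n hx e r).aestronglyMeasurable
  refine Filter.Eventually.of_forall fun y => ?_
  rw [Real.norm_eq_abs, abs_of_nonneg (Nd_nonneg n x y e r)]
  exact Nd_le n x y e r

theorem Nd_sq_integral (n : ℕ) {x : ℝ} (d : Fin 3) (q : Bool × Cfg n) :
    ∫ y, Nd n x y d q * Nd n x y d q = (1 / 3) * ∫ y, N n q.2 x y ^ 2 := by
  have := cov (fun u => N n q.2 x u ^ 2) ((d : ℕ) + bt q.1 * x)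
  rw [← this]
  congr 1
  ext y
  unfold Nd
  rw [sq, sub_sub]

/-- the mean second moment -/
noncomputable def Q (n : ℕ) (x : ℝ) : ℝ := A (fun c : Cfg n => ∫ y, N n c x y ^ 2)

theorem Q_zero (x : ℝ) : Q 0 x = 1 := by
  unfold Q
  haveI := cfgNonempty 0
  have : (fun c : Cfg 0 => ∫ y, N 0 c x y ^ 2) = fun _ => 1 := by
    ext c
    have h1 : ∀ y, N 0 c x y ^ 2 = indicator (Ico (0 : ℝ) 1) (fun _ => (1 : ℝ)) y := by
      intro y
      show (indicator (Ico (0 : ℝ) 1) (fun _ => (1 : ℝ)) y) ^ 2 = _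
      by_cases h : y ∈ Ico (0 : ℝ) 1
      · rw [indicator_of_mem h]; norm_num
      · rw [indicator_of_notMem h]; norm_num
    simp_rw [h1]
    rw [integral_indicator measurableSet_Ico]
    simp
  rw [this, A_const]

theorem cross (n : ℕ) {x : ℝ} (hx : 0 ≤ x) {d e : Fin 3} (hde : d ≠ e) :
    A (fun c : Fin 3 → Bool × Cfg n => ∫ y, Nd n x y d (c d) * Nd n x y e (c e)) ≤ x := by
  rw [← A_integral (fun c : Fin 3 → Bool × Cfg n => Nd_mul_int n hx d e (c d) (c e))]
  have h1 : ∀ y, A (fun c : Fin 3 → Bool × Cfg n => Nd n x y d (c d) * Nd n x y e (c e)) =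
      md n x y d * md n x y e := fun y => A_marg2 hde (Nd n x y d) (Nd n x y e)
  have h2 : ∃ a : ℝ, ∀ y, md n x y d * md n x y e ≤ indicator (Icc a (a + x)) (fun _ => (1 : ℝ)) y := by
    rcases Nat.lt_or_gt_of_ne (fun h => hde (Fin.ext h)) with h | h
    · exact ⟨_, md_mul_le n hx h⟩
    · refine ⟨((d : ℕ) : ℝ) / 3, fun y => ?_⟩
      rw [mul_comm]
      exact md_mul_le n hx h y
  obtain ⟨a, ha⟩ := h2
  have hint : Integrable (fun y : ℝ => indicator (Icc a (a + x)) (fun _ => (1 : ℝ)) y) :=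
    (integrable_indicator_iff measurableSet_Icc).mpr (by simp)
  have h3 : ∫ y, A (fun c : Fin 3 → Bool × Cfg n => Nd n x y d (c d) * Nd n x y e (c e)) ≤
      ∫ y, indicator (Icc a (a + x)) (fun _ => (1 : ℝ)) y := by
    apply integral_mono (A_integrable fun c : Fin 3 → Bool × Cfg n =>
      Nd_mul_int n hx d e (c d) (c e)) hint
    intro y
    show A (fun c : Fin 3 → Bool × Cfg n => Nd n x y d (c d) * Nd n x y e (c e)) ≤ _
    rw [h1 y]
    exact ha y
  refine h3.trans (le_of_eq ?_)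
  rw [integral_indicator measurableSet_Icc]
  simp [Real.volume_real_Icc_of_le (show a ≤ a + x by linarith)]

theorem diag (n : ℕ) (x : ℝ) (d : Fin 3) :
    A (fun c : Fin 3 → Bool × Cfg n => ∫ y, Nd n x y d (c d) * Nd n x y d (c d)) = Q n x / 3 := by
  have h1 : (fun c : Fin 3 → Bool × Cfg n => ∫ y, Nd n x y d (c d) * Nd n x y d (c d)) =
      fun c => (fun q : Bool × Cfg n => (1 / 3) * ∫ y, N n q.2 x y ^ 2) (c d) := by
    ext c
    exact Nd_sq_integral n d (c d)
  rw [h1, A_marg d (fun q : Bool × Cfg n => (1 / 3) * ∫ y, N n q.2 x y ^ 2), A_mul, A_bool]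
  unfold Q
  ring

theorem Q_rec (n : ℕ) {x : ℝ} (hx : 0 ≤ x) : Q (n + 1) x ≤ Q n x + 6 * x := by
  have h1 : ∀ c : Fin 3 → Bool × Cfg n, ∫ y, N (n + 1) c x y ^ 2 =
      ∑ d : Fin 3, ∑ e : Fin 3, ∫ y, Nd n x y d (c d) * Nd n x y e (c e) := by
    intro c
    have h2 : ∀ y, N (n + 1) c x y ^ 2 =
        ∑ d : Fin 3, ∑ e : Fin 3, Nd n x y d (c d) * Nd n x y e (c e) := by
      intro y
      rw [← Finset.sum_mul_sum, sq]
      rfl
    simp_rw [h2]
    rw [integral_finsetSum _ fun d _ => integrable_finsetSum _ fun e _ =>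
      Nd_mul_int n hx d e (c d) (c e)]
    refine Finset.sum_congr rfl fun d _ => ?_
    rw [integral_finsetSum _ fun e _ => Nd_mul_int n hx d e (c d) (c e)]
  have h3 : Q (n + 1) x = ∑ d : Fin 3, ∑ e : Fin 3,
      A (fun c : Fin 3 → Bool × Cfg n => ∫ y, Nd n x y d (c d) * Nd n x y e (c e)) := by
    have h4 : Q (n + 1) x = A (fun c : Fin 3 → Bool × Cfg n => ∑ d : Fin 3, ∑ e : Fin 3,
        ∫ y, Nd n x y d (c d) * Nd n x y e (c e)) := by
      show A (fun c : Fin 3 → Bool × Cfg n => ∫ y, N (n + 1) c x y ^ 2) = _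
      congr 1
      ext c
      exact h1 c
    rw [h4, A_sum]
    refine Finset.sum_congr rfl fun d _ => ?_
    rw [A_sum]
  rw [h3]
  calc ∑ d : Fin 3, ∑ e : Fin 3,
      A (fun c : Fin 3 → Bool × Cfg n => ∫ y, Nd n x y d (c d) * Nd n x y e (c e))
      ≤ ∑ d : Fin 3, ∑ e : Fin 3, (if d = e then Q n x / 3 else x) := by
        refine Finset.sum_le_sum fun d _ => Finset.sum_le_sum fun e _ => ?_
        by_cases h : d = e
        · subst h
          rw [if_pos rfl, diag]
        · rw [if_neg h]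
          exact cross n hx h
    _ = Q n x + 6 * x := by
        rw [Fin.sum_univ_three, Fin.sum_univ_three, Fin.sum_univ_three, Fin.sum_univ_three]
        simp
        ring

theorem Q_le (n : ℕ) {x : ℝ} (hx : 0 ≤ x) : Q n x ≤ 1 + 6 * n * x := by
  induction n with
  | zero => rw [Q_zero]; simp
  | succ n ih =>
    have := Q_rec n hx
    push_cast
    linarith

/-- **lower bound** -/
theorem lower (n : ℕ) {x : ℝ} (hx : 0 ≤ x) : 1 / (1 + 6 * n * x) ≤ ∫ y, P n x y := by
  set q : ℝ := 1 + 6 * n * x with hq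
  have hq0 : 0 < q := by positivity
  have h1 : ∀ c : Cfg n, 2 * (1 / q) - (1 / q) ^ 2 * ∫ y, N n c x y ^ 2 ≤ ∫ y, ind n c x y := by
    intro c
    have h2 : ∫ y, (2 * (1 / q) * N n c x y - (1 / q) ^ 2 * N n c x y ^ 2) ≤
        ∫ y, ind n c x y := by
      apply integral_mono (((N_int n c hx).const_mul _).sub ((N_sq_int n c hx).const_mul _))
        (ind_int n c hx)
      intro y
      show 2 * (1 / q) * N n c x y - (1 / q) ^ 2 * N n c x y ^ 2 ≤ ind n c x y
      unfold ind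
      split_ifs with h
      · nlinarith [sq_nonneg (1 / q * N n c x y - 1)]
      · have h0 : N n c x y = 0 := le_antisymm (not_lt.mp h) (N_nonneg _ _ _ _)
        rw [h0]; simp
    rw [integral_sub ((N_int n c hx).const_mul _) ((N_sq_int n c hx).const_mul _),
      integral_const_mul, integral_const_mul, N_integral n c hx, mul_one] at h2
    exact h2
  have h3 := A_mono h1
  rw [A_sub, A_const, A_mul] at h3
  have h4 : A (fun c : Cfg n => ∫ y, ind n c x y) = ∫ y, P n x y :=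
    (A_integral fun c => ind_int n c hx).symm
  rw [h4] at h3
  have h5 := Q_le n hx
  have h6 : (1 / q) ^ 2 * Q n x ≤ (1 / q) ^ 2 * q := mul_le_mul_of_nonneg_left h5 (by positivity)
  have h7 : (1 / q) ^ 2 * q = 1 / q := by field_simp
  have h8 : 2 * (1 / q) - (1 / q) ^ 2 * Q n x ≤ ∫ y, P n x y := h3
  linarith

end Pool.Agent.Cantor305
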