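import Pool.Agent.Cantor305.Upper
import Pool.Agent.Cantor305.Lower

set_option autoImplicit false

open MeasureTheory Set Filter

namespace Pool.Agent.Cantor305

/-- the measure of the slice -/
noncomputable def uN (n : ℕ) (c : Cfg n) (x : ℝ) : ℝ := ∫ y, ind n c x y

theorem uN_nonneg (n : ℕ) (c : Cfg n) (x : ℝ) : 0 ≤ uN n c x :=
  integral_nonneg fun y => ind_nonneg n c x y

theorem uN_le (n : ℕ) (c : Cfg n) {x : ℝ} (hx : 0 ≤ x) : uN n c x ≤ 1 + x := by
  have hM : 0 ≤ 1 + x := by linarith
  have hind : Integrable (fun y : ℝ => indicator (Icc (0 : ℝ) (1 + x)) (fun _ => (1 : ℝ)) y) :=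
      (integrable_indicator_iff measurableSet_Icc).mpr (by simp)
  have h4 : uN n c x ≤ ∫ y, indicator (Icc (0 : ℝ) (1 + x)) (fun _ => (1 : ℝ)) y := by
    apply integral_mono (ind_int n c hx) hind
    intro y
    show ind n c x y ≤ indicator (Icc (0 : ℝ) (1 + x)) (fun _ => (1 : ℝ)) y
    by_cases hy : y ∈ Icc (0 : ℝ) (1 + x)
    · rw [indicator_of_mem hy]; exact ind_le n c x y
    · rw [indicator_of_notMem hy]
      have : ind n c x y = 0 := by
        by_contra h
        have := ind_supp n c hx h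
        exact hy ⟨this.1, this.2.le⟩
      rw [this]
  rw [integral_indicator measurableSet_Icc] at h4
  have h5 : ∫ _ in Icc (0 : ℝ) (1 + x), (1 : ℝ) = 1 + x := by
    simp [Real.volume_real_Icc_of_le hM]
  rwa [h5] at h4

theorem uN_meas (n : ℕ) (c : Cfg n) : Measurable (fun x => uN n c x) := by
  have h := (ind_meas n c).stronglyMeasurable
  exact (StronglyMeasurable.integral_prod_right (ν := volume) h).measurable

theorem uN_int (n : ℕ) (c : Cfg n) {a b : ℝ} (ha : 0 ≤ a) : IntegrableOn (fun x => uN n c x) (Icc a b) := by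
  apply Measure.integrableOn_of_bounded (M := 1 + b) (by simp) (uN_meas n c).aestronglyMeasurable
  rw [ae_restrict_iff' measurableSet_Icc]
  refine Eventually.of_forall fun x hx => ?_
  rw [Real.norm_eq_abs, abs_of_nonneg (uN_nonneg n c x)]
  have := uN_le n c (x := x) (by linarith [hx.1])
  linarith [hx.2]

theorem A_uN (n : ℕ) {x : ℝ} (hx : 0 ≤ x) : A (fun c : Cfg n => uN n c x) = ∫ y, P n x y :=
  (A_integral fun c => ind_int n c hx).symm

theorem A_ext (n : ℕ) (hn : 1 ≤ n) : Real.log (6 * n + 1) / (6 * n) ≤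
    A (fun c : Cfg n => ∫ x in Icc (0 : ℝ) 1, uN n c x) := by
  rw [← A_integral (μ := volume.restrict (Icc (0 : ℝ) 1)) (fun c : Cfg n => uN_int n c le_rfl)]
  have hn0 : (0 : ℝ) < n := by exact_mod_cast hn
  have h1 : ∫ x in (0 : ℝ)..1, (6 * (n : ℝ) * x + 1)⁻¹ = Real.log (6 * n + 1) / (6 * n) := by
    have := intervalIntegral.integral_comp_mul_add (a := (0 : ℝ)) (b := 1) (fun u : ℝ => u⁻¹)
      (c := 6 * (n : ℝ)) (by positivity) 1
    rw [this, integral_inv_of_pos (by norm_num) (by positivity)]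
    rw [smul_eq_mul, mul_one, mul_zero, zero_add, div_one]
    field_simp
  rw [← h1, intervalIntegral.integral_of_le zero_le_one, ← integral_Icc_eq_integral_Ioc]
  apply setIntegral_mono_on
  · apply ContinuousOn.integrableOn_Icc
    apply ContinuousOn.inv₀
    · fun_prop
    · intro x hx
      have := hx.1
      positivity
  · exact A_integrable (μ := volume.restrict (Icc (0 : ℝ) 1)) (fun c : Cfg n => uN_int n c le_rfl)
  · exact measurableSet_Icc
  · intro x hx
    rw [A_uN n hx.1]
    refine le_trans (le_of_eq ?_) (lower n hx.1)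
    rw [one_div, add_comm]

theorem A_in (n : ℕ) : A (fun c : Cfg n => ∫ x in Icc (1 : ℝ) 13, uN n c x) ≤ 1008 / (n + 1) := by
  rw [← A_integral (μ := volume.restrict (Icc (1 : ℝ) 13)) (fun c : Cfg n => uN_int n c zero_le_one)]
  have h1 : ∫ x in Icc (1 : ℝ) 13, (84 / ((n : ℝ) + 1)) = 1008 / (n + 1) := by
    rw [setIntegral_const, Real.volume_real_Icc_of_le (by norm_num), smul_eq_mul]
    ring
  rw [← h1]
  apply setIntegral_mono_on
  · exact A_integrable (μ := volume.restrict (Icc (1 : ℝ) 13))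
      (fun c : Cfg n => uN_int n c zero_le_one)
  · simp
  · exact measurableSet_Icc
  · intro x hx
    rw [A_uN n (by linarith [hx.1])]
    refine (upper n hx.1).trans ?_
    apply div_le_div_of_nonneg_right _ (by positivity)
    linarith [hx.2]

/-- a configuration whose extension is much larger than its inside part -/
theorem exists_cfg {R : ℝ} (hR : 0 < R) (n0 : ℕ) : ∃ n ≥ n0, ∃ c : Cfg n,
    R * ∫ x in Icc (1 : ℝ) 13, uN n c x < ∫ x in Icc (0 : ℝ) 1, uN n c x := by
  obtain ⟨n, hn0, hn1, hlog⟩ : ∃ n ≥ n0, 1 ≤ n ∧ 6048 * R < Real.log (6 * n + 1) := by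
    have h1 : Tendsto (fun n : ℕ => Real.log (6 * n + 1)) atTop atTop := by
      apply Real.tendsto_log_atTop.comp
      apply tendsto_atTop_add_const_right
      exact tendsto_natCast_atTop_atTop.const_mul_atTop (by norm_num)
    obtain ⟨n, hn⟩ := ((eventually_ge_atTop (max n0 1)).and
      (h1.eventually_gt_atTop (6048 * R))).exists
    exact ⟨n, (le_max_left _ _).trans hn.1, (le_max_right _ _).trans hn.1, hn.2⟩
  refine ⟨n, hn0, ?_⟩
  by_contra hcon
  push Not at hcon
  have h1 := A_mono hcon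
  rw [A_mul] at h1
  have h2 := A_ext n hn1
  have h3 := A_in n
  have hnpos : (0 : ℝ) < n := by exact_mod_cast hn1
  have h4 : R * A (fun c : Cfg n => ∫ x in Icc (1 : ℝ) 13, uN n c x) ≤ R * (1008 / (n + 1)) :=
    mul_le_mul_of_nonneg_left h3 hR.le
  have h5 : R * (1008 / ((n : ℝ) + 1)) ≤ R * 1008 / n := by
    rw [← mul_div_assoc]
    exact div_le_div_of_nonneg_left (by positivity) hnpos (by linarith)
  have h6 : Real.log (6 * n + 1) / (6 * n) ≤ R * 1008 / n := by linarith
  rw [div_le_div_iff₀ (by positivity) hnpos] at h6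
  have h7 : Real.log (6 * n + 1) * n ≤ (6048 * R) * n := by nlinarith
  have h8 := le_of_mul_le_mul_right h7 hnpos
  linarith

end Pool.Agent.Cantor305
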