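import Mathlib

set_option autoImplicit false

namespace Pool.Agent.Cantor305

/-- `3 ^ (-m)` -/
noncomputable def wd (m : ℕ) : ℝ := (1 / 3) ^ m

theorem wd_pos (m : ℕ) : 0 < wd m := by unfold wd; positivity

theorem wd_le_one (m : ℕ) : wd m ≤ 1 := pow_le_one₀ (by norm_num) (by norm_num)

theorem wd_zero : wd 0 = 1 := by simp [wd]

theorem wd_add (m n : ℕ) : wd (m + n) = wd m * wd n := pow_add _ _ _

theorem wd_succ (m : ℕ) : wd (m + 1) = wd m / 3 := by unfold wd; rw [pow_succ]; ring

theorem wd_anti {m n : ℕ} (h : m ≤ n) : wd n ≤ wd m :=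
  pow_le_pow_of_le_one (by norm_num) (by norm_num) h

theorem wd_mul_pow (m : ℕ) : wd m * 3 ^ m = 1 := by
  unfold wd; rw [← mul_pow]; norm_num

theorem wd_tendsto : Filter.Tendsto wd Filter.atTop (nhds 0) :=
  tendsto_pow_atTop_nhds_zero_of_lt_one (by norm_num) (by norm_num)

theorem cantor_div {c : ℝ} (hc : c ∈ cantorSet) : c / 3 ∈ cantorSet := by
  rw [cantorSet_eq_union_halves]
  exact Or.inl ⟨c, hc, rfl⟩

theorem cantor_two {c : ℝ} (hc : c ∈ cantorSet) : (2 + c) / 3 ∈ cantorSet := by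
  rw [cantorSet_eq_union_halves]
  exact Or.inr ⟨c, hc, rfl⟩

/-- `s` is the left end point of a piece of level `m` of the Cantor set -/
structure Good (m : ℕ) (s : ℝ) : Prop where
  int : ∃ k : ℤ, s = 2 * k * wd m
  nonneg : 0 ≤ s
  le : s + wd m ≤ 1
  cantor : ∀ c ∈ cantorSet, s + wd m * c ∈ cantorSet

theorem Good.comp {m n : ℕ} {s t : ℝ} (hs : Good m s) (ht : Good n t) :
    Good (m + n) (s + wd m * t) := by
  obtain ⟨k, hk⟩ := hs.int
  obtain ⟨l, hl⟩ := ht.int
  refine ⟨⟨k * 3 ^ n + l, ?_⟩, ?_, ?_, ?_⟩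
  · rw [wd_add, hl]
    conv_lhs => rw [hk]
    push_cast
    have := wd_mul_pow n
    linear_combination (-2 * k * wd m) * this
  · have := hs.nonneg; have := ht.nonneg; have := wd_pos m; positivity
  · rw [wd_add]
    have h1 := ht.le
    have h2 := hs.le
    have h3 := wd_pos m
    nlinarith
  · intro c hc
    have h1 := hs.cantor _ (ht.cantor c hc)
    rw [wd_add]
    convert h1 using 1
    ring

theorem good_zero (m : ℕ) : Good m 0 := by
  induction m with
  | zero => exact ⟨⟨0, by simp⟩, le_rfl, by simp [wd_zero], fun c hc => by simpa [wd_zero] using hc⟩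
  | succ m ih =>
    have h1 : Good 1 0 := by
      refine ⟨⟨0, by simp⟩, le_rfl, by norm_num [wd], fun c hc => ?_⟩
      have := cantor_div hc
      convert this using 1
      simp [wd]; ring
    have := ih.comp h1
    simpa using this

theorem good_two : Good 1 (2 / 3) := by
  refine ⟨⟨1, by norm_num [wd]⟩, by norm_num, by norm_num [wd], fun c hc => ?_⟩
  have := cantor_two hc
  convert this using 1
  simp [wd]; ring

theorem Good.mono {m : ℕ} {s : ℝ} (hs : Good m s) (n : ℕ) : Good (m + n) s := by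
  have := hs.comp (good_zero n)
  simpa using this

/-- the shifts used for separating slopes -/
theorem good_shift {j l : ℕ} (h : j < l) : Good l (2 * wd (j + 1)) := by
  obtain ⟨r, rfl⟩ := Nat.exists_eq_add_of_lt h
  have h1 := ((good_zero j).comp good_two).mono r
  have e : 0 + wd j * (2 / 3) = 2 * wd (j + 1) := by rw [wd_succ]; ring
  rw [e, show j + 1 + r = j + r + 1 by omega] at h1
  exact h1

theorem shift_ne {i j : ℕ} (h : i ≠ j) : 2 * wd (i + 1) ≠ 2 * wd (j + 1) := by
  intro h'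
  have h1 : wd (i + 1) = wd (j + 1) := by linarith
  have h2 : Function.Injective wd := by
    intro a b hab
    exact pow_right_injective₀ (by norm_num : (0 : ℝ) < 1 / 3) (by norm_num) hab
  have := h2 h1
  omega

theorem Good.sep {m : ℕ} {s t : ℝ} (hs : Good m s) (ht : Good m t) (h : s ≠ t) :
    2 * wd m ≤ |s - t| := by
  obtain ⟨k, rfl⟩ := hs.int
  obtain ⟨l, rfl⟩ := ht.int
  have hkl : k ≠ l := by rintro rfl; exact h rfl
  have h1 : (1 : ℝ) ≤ |((k - l : ℤ) : ℝ)| := by
    have : (1 : ℤ) ≤ |k - l| := Int.one_le_abs (sub_ne_zero.mpr hkl)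
    exact_mod_cast this
  have h2 : 2 * (k : ℝ) * wd m - 2 * l * wd m = 2 * wd m * ((k - l : ℤ) : ℝ) := by
    push_cast; ring
  rw [h2, abs_mul, abs_of_pos (by have := wd_pos m; positivity : 0 < 2 * wd m)]
  have := wd_pos m
  nlinarith

theorem Good.mem {m : ℕ} {s : ℝ} (hs : Good m s) : s ∈ cantorSet := by
  have := hs.cantor 0 zero_mem_cantorSet
  simpa using this

end Pool.Agent.Cantor305
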