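import Pool.Agent.Cantor305.Step

set_option autoImplicit false

open MeasureTheory Set Filter
open scoped ENNReal

namespace Pool.Agent.Cantor305

/-- composition of tubes -/
noncomputable def comp (m : ℕ) (t u : ℝ × ℝ) : ℝ × ℝ := (t.1 + wd m * u.1, t.2 + wd m * u.2)

/-- the box of slopes and intercepts of the tube `t` -/
def bx (m : ℕ) (t : ℝ × ℝ) : Set (ℝ × ℝ) := Icc t.1 (t.1 + wd m) ×ˢ Icc t.2 (t.2 + 12 * wd m)

/-- the normalisation of the tube `t` -/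
noncomputable def Psi (m : ℕ) (t p : ℝ × ℝ) : ℝ × ℝ := (p.1, (p.2 - t.1 * p.1 - t.2) / wd m)

theorem Psi_cv (m k : ℕ) (t u p : ℝ × ℝ) : p ∈ cv (m + k) (comp m t u) ↔ Psi m t p ∈ cv k u := by
  have hw := wd_pos m
  unfold cv Psi comp
  simp only [mem_ofPred_eq]
  rw [le_div_iff₀ hw, div_le_iff₀ hw, wd_add]
  constructor
  · rintro ⟨h1, h2, h3⟩
    exact ⟨h1, by linarith, by linarith⟩
  · rintro ⟨h1, h2, h3⟩
    exact ⟨h1, by linarith, by linarith⟩

theorem Psi_nn (m k : ℕ) (t u p : ℝ × ℝ) : p ∈ nn (m + k) (comp m t u) ↔ Psi m t p ∈ nn k u := by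
  have hw := wd_pos m
  unfold nn Psi comp
  simp only [mem_ofPred_eq]
  rw [le_div_iff₀ hw, div_le_iff₀ hw, wd_add]
  constructor
  · rintro ⟨h1, h2, h3⟩
    exact ⟨h1, by linarith, by linarith⟩
  · rintro ⟨h1, h2, h3⟩
    exact ⟨h1, by linarith, by linarith⟩

theorem comp_zero (m : ℕ) (t : ℝ × ℝ) : comp m t (0, 0) = t := by simp [comp]

theorem cv_zero : cv 0 (0, 0) = Om := by
  ext p
  simp only [cv, Om, wd_zero, mem_ofPred_eq, mem_prod, mem_Icc]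
  norm_num

theorem Psi_Om (m : ℕ) (t p : ℝ × ℝ) : p ∈ cv m t ↔ Psi m t p ∈ Om := by
  have := Psi_cv m 0 t (0, 0) p
  rwa [comp_zero, cv_zero, add_zero] at this

theorem nn_valid {k : ℕ} {u : ℝ × ℝ} (hu : Valid k u) : nn k u ⊆ nn 0 (0, 0) := by
  rintro p ⟨⟨h1, h2⟩, h3, h4⟩
  obtain ⟨g, h5, h6⟩ := hu
  have h7 := g.nonneg
  have h8 := g.le
  have h9 : 0 ≤ u.1 * p.1 := mul_nonneg h7 (by linarith)
  have h10 : u.1 * p.1 ≤ u.1 * 2 := mul_le_mul_of_nonneg_left h2 h7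
  refine ⟨⟨h1, h2⟩, ?_, ?_⟩
  · show 0 * p.1 + 0 ≤ p.2
    linarith
  · show p.2 ≤ 0 * p.1 + 0 + 14 * wd 0
    rw [wd_zero]
    linarith

theorem nn_comp {m k : ℕ} {t u : ℝ × ℝ} (hu : Valid k u) : nn (m + k) (comp m t u) ⊆ nn m t := by
  intro p hp
  have h1 := nn_valid hu ((Psi_nn m k t u p).mp hp)
  have := Psi_nn m 0 t (0, 0) p
  rw [comp_zero, add_zero] at this
  exact this.mpr h1

theorem Valid.comp {m k : ℕ} {t u : ℝ × ℝ} (ht : Valid m t) (hu : Valid k u) :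
    Valid (m + k) (comp m t u) := by
  obtain ⟨g, h1, h2⟩ := ht
  obtain ⟨g', h3, h4⟩ := hu
  have hw := wd_pos m
  have hw1 := wd_le_one m
  refine ⟨g.comp g', ?_, ?_⟩
  · show 0 ≤ t.2 + wd m * u.2
    positivity
  · show t.2 + wd m * u.2 + 12 * wd (m + k) ≤ 12
    rw [wd_add]
    nlinarith

theorem bx_comp {m k : ℕ} {t u : ℝ × ℝ} (hu : Valid k u) : bx (m + k) (comp m t u) ⊆ bx m t := by
  obtain ⟨g, h1, h2⟩ := hu
  have hw := wd_pos m
  have g0 := g.nonneg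
  have g1 := g.le
  rintro ⟨s, b⟩ ⟨⟨h3, h4⟩, h5, h6⟩
  simp only [Pool.Agent.Cantor305.comp] at h3 h4 h5 h6
  rw [wd_add] at h4 h6
  refine ⟨⟨?_, ?_⟩, ?_, ?_⟩
  · show t.1 ≤ s
    nlinarith
  · show s ≤ t.1 + wd m
    nlinarith
  · show t.2 ≤ b
    nlinarith
  · show b ≤ t.2 + 12 * wd m
    nlinarith

theorem Psi_meas (m : ℕ) (t : ℝ × ℝ) : Measurable (Psi m t) := by
  unfold Psi
  fun_prop

theorem Psi_vol (m : ℕ) (t : ℝ × ℝ) {S : Set (ℝ × ℝ)} (hS : MeasurableSet S) :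
    volume (Psi m t ⁻¹' S) ≤ volume S := by
  have hw := wd_pos m
  rw [Measure.volume_eq_prod, Measure.prod_apply (Psi_meas m t hS), Measure.prod_apply hS]
  apply lintegral_mono
  intro x
  show volume (Prod.mk x ⁻¹' (Psi m t ⁻¹' S)) ≤ volume (Prod.mk x ⁻¹' S)
  have h1 : Prod.mk x ⁻¹' (Psi m t ⁻¹' S) =
      (fun y => y - (t.1 * x + t.2)) ⁻¹' ((fun y => y * (wd m)⁻¹) ⁻¹' (Prod.mk x ⁻¹' S)) := by
    ext y
    show (x, (y - t.1 * x - t.2) / wd m) ∈ S ↔ (x, (y - (t.1 * x + t.2)) * (wd m)⁻¹) ∈ S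
    rw [div_eq_mul_inv, sub_sub]
  have hSx : MeasurableSet (Prod.mk x ⁻¹' S) := measurable_prodMk_left hS
  have h2 : MeasurableSet ((fun y => y * (wd m)⁻¹) ⁻¹' (Prod.mk x ⁻¹' S)) :=
    (measurable_id.mul_const _) hSx
  rw [h1, (measurePreserving_sub_right volume (t.1 * x + t.2)).measure_preimage
    h2.nullMeasurableSet, Real.volume_preimage_mul_right (inv_ne_zero hw.ne'), inv_inv,
    abs_of_pos hw]
  calc ENNReal.ofReal (wd m) * volume (Prod.mk x ⁻¹' S)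
      ≤ 1 * volume (Prod.mk x ⁻¹' S) := by
        gcongr
        rw [← ENNReal.ofReal_one]
        exact ENNReal.ofReal_le_ofReal (wd_le_one m)
    _ = _ := one_mul _

/-! ### splitting -/

/-- thin tubes of slope `c` covering the target region -/
noncomputable def Sp (l : ℕ) (c : ℝ) : Finset (ℝ × ℝ) := by
  classical
  exact (Finset.range (11 * 3 ^ l)).image fun r : ℕ => (c, 9 * (r : ℝ) * wd (l + 2))

theorem Sp_mem {l : ℕ} {c : ℝ} {v : ℝ × ℝ} (hv : v ∈ Sp l c) :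
    ∃ r : ℕ, r < 11 * 3 ^ l ∧ v = (c, 9 * (r : ℝ) * wd (l + 2)) := by
  classical
  unfold Sp at hv
  obtain ⟨r, hr, rfl⟩ := Finset.mem_image.mp hv
  exact ⟨r, Finset.mem_range.mp hr, rfl⟩

theorem wd_two (l : ℕ) : wd (l + 2) = wd l / 9 := by
  rw [wd_add]; norm_num [wd]; ring

theorem Sp_valid {l : ℕ} {c : ℝ} (hc : Good (l + 2) c) {v : ℝ × ℝ} (hv : v ∈ Sp l c) :
    Valid (l + 2) v := by
  obtain ⟨r, hr, rfl⟩ := Sp_mem hv
  have hw := wd_pos l
  have hw1 := wd_le_one l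
  refine ⟨hc, ?_, ?_⟩
  · show 0 ≤ 9 * (r : ℝ) * wd (l + 2)
    have := wd_pos (l + 2)
    positivity
  · show 9 * (r : ℝ) * wd (l + 2) + 12 * wd (l + 2) ≤ 12
    have h1 : (r : ℝ) + 1 ≤ 11 * 3 ^ l := by exact_mod_cast hr
    have h2 : wd l * 3 ^ l = 1 := wd_mul_pow l
    have h3 : ((r : ℝ) + 1) * wd l ≤ 11 := by
      calc ((r : ℝ) + 1) * wd l ≤ (11 * 3 ^ l) * wd l := mul_le_mul_of_nonneg_right h1 hw.le
        _ = 11 * (wd l * 3 ^ l) := by ring
        _ = 11 := by rw [h2, mul_one]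
    rw [wd_two]
    linarith

theorem Sp_cover {l : ℕ} {c : ℝ} (hc : Good (l + 2) c) {p : ℝ × ℝ} (hp : p ∈ Om) :
    ∃ v ∈ Sp l c, p ∈ cv (l + 2) v := by
  classical
  obtain ⟨⟨h1, h2⟩, h3, h4⟩ := hp
  have hc0 := hc.nonneg
  have hc1 := hc.le
  have hw := wd_pos l
  have hw2 := wd_pos (l + 2)
  have e1 : 0 ≤ c * p.1 := mul_nonneg hc0 (by linarith)
  have e2 : c * p.1 ≤ 7 / 8 := by nlinarith
  set z := p.2 - c * p.1 with hz
  have hz1 : 9 / 8 ≤ z := by linarith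
  have hz2 : z ≤ 11 := by linarith
  have hwl : wd (l + 2) ≤ 1 / 9 := by rw [wd_two]; have := wd_le_one l; linarith
  set Z := z / wd (l + 2) with hZ
  have hZz : Z * wd (l + 2) = z := div_mul_cancel₀ _ hw2.ne'
  have hZ1 : 2 ≤ Z := by
    rw [hZ, le_div_iff₀ hw2]; linarith
  set r := ⌊(Z - 2) / 9⌋₊ with hr
  have hr1 : (r : ℝ) ≤ (Z - 2) / 9 := Nat.floor_le (by linarith)
  have hr2 : (Z - 2) / 9 < r + 1 := Nat.lt_floor_add_one _
  have hrlt : r < 11 * 3 ^ l := by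
    have h5 : (r : ℝ) < 11 * 3 ^ l := by
      have h6 : wd l * 3 ^ l = 1 := wd_mul_pow l
      have h7 : Z ≤ 99 * 3 ^ l := by
        rw [hZ, div_le_iff₀ hw2, wd_two]
        have : 99 * 3 ^ l * (wd l / 9) = 11 * (wd l * 3 ^ l) := by ring
        rw [this, h6]; linarith
      linarith
    exact_mod_cast h5
  refine ⟨(c, 9 * (r : ℝ) * wd (l + 2)), ?_, ⟨h1, h2⟩, ?_, ?_⟩
  · unfold Sp
    exact Finset.mem_image.mpr ⟨r, Finset.mem_range.mpr hrlt, rfl⟩
  · show c * p.1 + 9 * (r : ℝ) * wd (l + 2) + 2 * wd (l + 2) ≤ p.2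
    have h8 : (9 * (r : ℝ) + 2) * wd (l + 2) ≤ Z * wd (l + 2) :=
      mul_le_mul_of_nonneg_right (by linarith) hw2.le
    rw [hZz] at h8
    linarith
  · show p.2 ≤ c * p.1 + 9 * (r : ℝ) * wd (l + 2) + 11 * wd (l + 2)
    have h8 : Z * wd (l + 2) ≤ (9 * (r : ℝ) + 11) * wd (l + 2) :=
      mul_le_mul_of_nonneg_right (by linarith) hw2.le
    rw [hZz] at h8
    linarith

/-! ### the iteration lemma -/

theorem exists_idx {α : Type} (P : Finset α) : ∃ j : α → ℕ, Set.InjOn j P ∧ ∀ x ∈ P, j x < P.card := by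
  classical
  refine ⟨fun x => if h : x ∈ P then (P.equivFin ⟨x, h⟩ : ℕ) else 0, ?_, ?_⟩
  · intro x hx y hy hxy
    have hx' : x ∈ P := hx
    have hy' : y ∈ P := hy
    simp only [hx', hy', dif_pos] at hxy
    have := P.equivFin.injective (Fin.ext hxy)
    exact congrArg Subtype.val this
  · intro x hx
    simp only [hx, dif_pos]
    exact (P.equivFin ⟨x, hx⟩).2

theorem iter (m : ℕ) (F : Finset (ℝ × ℝ)) (hF : ∀ t ∈ F, Valid m t) {ε η δ : ℝ} (hε : 0 < ε)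
    (hη : 0 < η) (hδ : 0 < δ) :
    ∃ m' > m, ∃ F' : Finset (ℝ × ℝ), (∀ t ∈ F', Valid m' t) ∧
      (∀ t' ∈ F', ∃ t ∈ F, bx m' t' ⊆ bx m t) ∧
      volume (⋃ t ∈ F', nn m' t) ≤ ENNReal.ofReal ε ∧
      volume ((⋃ t ∈ F, cv m t) \ ⋃ t ∈ F', cv m' t) ≤ ENNReal.ofReal η ∧
      (∀ t ∈ F', ∀ t' ∈ F', ∀ s b b' : ℝ, (s, b) ∈ bx m' t → (s, b') ∈ bx m' t' → |b - b'| ≤ δ) := by
  classical
  obtain ⟨k0, hk0⟩ : ∃ k0, 12 * wd k0 ≤ δ := by
    have h1 := wd_tendsto.const_mul 12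
    rw [mul_zero] at h1
    obtain ⟨k0, hk0⟩ := (h1.eventually_lt_const hδ).exists
    exact ⟨k0, hk0.le⟩
  set Nn : ℝ := (F.card : ℝ) + 1 with hNn
  have hNpos : 0 < Nn := by positivity
  obtain ⟨k, hk, C, hC, hCi, hCc⟩ := step (ε := ε / Nn) (η := η / Nn) (by positivity)
    (by positivity) (max k0 1)
  have hkk0 : k0 ≤ k := (le_max_left _ _).trans hk
  have hk1 : 1 ≤ k := (le_max_right _ _).trans hk
  set P := F ×ˢ C with hP
  obtain ⟨j, hjinj, hjlt⟩ := exists_idx P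
  set l := P.card with hl
  set sh : (ℝ × ℝ) × (ℝ × ℝ) → ℝ := fun x => 2 * wd (j x + 1) with hsh
  have hgood : ∀ x ∈ P, Good (l + 2) (sh x) := fun x hx => good_shift (by have := hjlt x hx; omega)
  set F' := P.biUnion fun x => (Sp l (sh x)).image fun v => comp (m + k) (comp m x.1 x.2) v
    with hF'
  have hmem : ∀ t' ∈ F', ∃ x ∈ P, ∃ v ∈ Sp l (sh x), t' = comp (m + k) (comp m x.1 x.2) v := by
    intro t' ht'
    rw [hF', Finset.mem_biUnion] at ht'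
    obtain ⟨x, hx, ht'⟩ := ht'
    obtain ⟨v, hv, rfl⟩ := Finset.mem_image.mp ht'
    exact ⟨x, hx, v, hv, rfl⟩
  have hmem' : ∀ x ∈ P, ∀ v ∈ Sp l (sh x), comp (m + k) (comp m x.1 x.2) v ∈ F' := by
    intro x hx v hv
    rw [hF', Finset.mem_biUnion]
    exact ⟨x, hx, Finset.mem_image.mpr ⟨v, hv, rfl⟩⟩
  have hxF : ∀ x ∈ P, x.1 ∈ F ∧ x.2 ∈ C := fun x hx => Finset.mem_product.mp hx
  refine ⟨m + k + (l + 2), by omega, F', ?_, ?_, ?_, ?_, ?_⟩
  · intro t' ht'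
    obtain ⟨x, hx, v, hv, rfl⟩ := hmem t' ht'
    exact ((hF _ (hxF x hx).1).comp (hC _ (hxF x hx).2)).comp (Sp_valid (hgood x hx) hv)
  · intro t' ht'
    obtain ⟨x, hx, v, hv, rfl⟩ := hmem t' ht'
    exact ⟨x.1, (hxF x hx).1, (bx_comp (Sp_valid (hgood x hx) hv)).trans
      (bx_comp (hC _ (hxF x hx).2))⟩
  · have h1 : (⋃ t ∈ F', nn (m + k + (l + 2)) t) ⊆
        ⋃ t ∈ F, Psi m t ⁻¹' (⋃ u ∈ C, nn k u) := by
      intro p hp
      rw [mem_iUnion₂] at hp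
      obtain ⟨t', ht', hp⟩ := hp
      obtain ⟨x, hx, v, hv, rfl⟩ := hmem t' ht'
      have h2 := nn_comp (Sp_valid (hgood x hx) hv) hp
      rw [Psi_nn] at h2
      exact mem_iUnion₂.mpr ⟨x.1, (hxF x hx).1, mem_iUnion₂.mpr ⟨x.2, (hxF x hx).2, h2⟩⟩
    have hCm : MeasurableSet (⋃ u ∈ C, nn k u) :=
      Finset.measurableSet_biUnion _ fun u _ => nn_meas k u
    calc volume (⋃ t ∈ F', nn (m + k + (l + 2)) t)
        ≤ volume (⋃ t ∈ F, Psi m t ⁻¹' (⋃ u ∈ C, nn k u)) := measure_mono h1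
      _ ≤ ∑ t ∈ F, volume (Psi m t ⁻¹' (⋃ u ∈ C, nn k u)) := measure_biUnion_finset_le _ _
      _ ≤ ∑ t ∈ F, ENNReal.ofReal (ε / Nn) :=
          Finset.sum_le_sum fun t _ => (Psi_vol m t hCm).trans hCi
      _ = ENNReal.ofReal (F.card * (ε / Nn)) := by
          rw [Finset.sum_const, nsmul_eq_mul, ENNReal.ofReal_mul (Nat.cast_nonneg F.card),
            ENNReal.ofReal_natCast]
      _ ≤ ENNReal.ofReal ε := by
          apply ENNReal.ofReal_le_ofReal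
          rw [mul_div_assoc', div_le_iff₀ hNpos, hNn]
          nlinarith
  · have h1 : ((⋃ t ∈ F, cv m t) \ ⋃ t ∈ F', cv (m + k + (l + 2)) t) ⊆
        ⋃ t ∈ F, Psi m t ⁻¹' (Om \ ⋃ u ∈ C, cv k u) := by
      rintro p ⟨hp, hnot⟩
      rw [mem_iUnion₂] at hp
      obtain ⟨t, ht, hp⟩ := hp
      refine mem_iUnion₂.mpr ⟨t, ht, (Psi_Om m t p).mp hp, fun h => hnot ?_⟩
      rw [mem_iUnion₂] at h
      obtain ⟨u, hu, h⟩ := h
      have hx : (t, u) ∈ P := Finset.mem_product.mpr ⟨ht, hu⟩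
      have h2 := (Psi_cv m k t u p).mpr h
      obtain ⟨v, hv, h3⟩ := Sp_cover (hgood _ hx) ((Psi_Om _ _ _).mp h2)
      exact mem_iUnion₂.mpr ⟨_, hmem' _ hx v hv, (Psi_cv _ _ _ _ _).mpr h3⟩
    have hCm : MeasurableSet (Om \ ⋃ u ∈ C, cv k u) :=
      Om_meas.diff (Finset.measurableSet_biUnion _ fun u _ => cv_meas k u)
    calc volume ((⋃ t ∈ F, cv m t) \ ⋃ t ∈ F', cv (m + k + (l + 2)) t)
        ≤ volume (⋃ t ∈ F, Psi m t ⁻¹' (Om \ ⋃ u ∈ C, cv k u)) := measure_mono h1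
      _ ≤ ∑ t ∈ F, volume (Psi m t ⁻¹' (Om \ ⋃ u ∈ C, cv k u)) := measure_biUnion_finset_le _ _
      _ ≤ ∑ t ∈ F, ENNReal.ofReal (η / Nn) :=
          Finset.sum_le_sum fun t _ => (Psi_vol m t hCm).trans hCc
      _ = ENNReal.ofReal (F.card * (η / Nn)) := by
          rw [Finset.sum_const, nsmul_eq_mul, ENNReal.ofReal_mul (Nat.cast_nonneg F.card),
            ENNReal.ofReal_natCast]
      _ ≤ ENNReal.ofReal η := by
          apply ENNReal.ofReal_le_ofReal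
          rw [mul_div_assoc', div_le_iff₀ hNpos, hNn]
          nlinarith
  · intro t ht t' ht' s b b' hb hb'
    obtain ⟨x, hx, v, hv, rfl⟩ := hmem t ht
    obtain ⟨y, hy, v', hv', rfl⟩ := hmem t' ht'
    set W := wd (m + k) with hW
    have hWpos : 0 < W := wd_pos _
    by_cases hxy : x = y
    · subst hxy
      have h1 := bx_comp (Sp_valid (hgood x hx) hv) hb
      have h2 := bx_comp (Sp_valid (hgood x hx) hv') hb'
      obtain ⟨_, h3, h4⟩ := h1
      obtain ⟨_, h5, h6⟩ := h2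
      have h7 : W ≤ wd k0 := wd_anti (by omega)
      simp only at h3 h4 h5 h6
      rw [abs_le]
      constructor <;> linarith
    · exfalso
      obtain ⟨r, _, rfl⟩ := Sp_mem hv
      obtain ⟨r', _, rfl⟩ := Sp_mem hv'
      obtain ⟨⟨h3, h4⟩, _⟩ := hb
      obtain ⟨⟨h5, h6⟩, _⟩ := hb'
      have gx : Good (m + k) (comp m x.1 x.2).1 :=
        ((hF _ (hxF x hx).1).comp (hC _ (hxF x hx).2)).1
      have gy : Good (m + k) (comp m y.1 y.2).1 :=
        ((hF _ (hxF y hy).1).comp (hC _ (hxF y hy).2)).1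
      set a := (comp m x.1 x.2).1 with ha
      set a' := (comp m y.1 y.2).1 with ha'
      have hq : wd (m + k + (l + 2)) = W * wd (l + 2) := wd_add _ _
      change a + W * sh x ≤ s at h3
      change s ≤ a + W * sh x + wd (m + k + (l + 2)) at h4
      change a' + W * sh y ≤ s at h5
      change s ≤ a' + W * sh y + wd (m + k + (l + 2)) at h6
      rw [hq] at h4 h6
      have hql := wd_pos (l + 2)
      have hdiff : |(a + W * sh x) - (a' + W * sh y)| ≤ W * wd (l + 2) := by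
        rw [abs_le]; constructor <;> linarith
      by_cases haa : a = a'
      · have hne : sh x ≠ sh y := shift_ne (fun h => hxy (hjinj hx hy h))
        have h7 := (hgood x hx).sep (hgood y hy) hne
        rw [haa] at hdiff
        have h8 : (a' + W * sh x) - (a' + W * sh y) = W * (sh x - sh y) := by ring
        rw [h8, abs_mul, abs_of_pos hWpos] at hdiff
        nlinarith
      · have h7 := gx.sep gy haa
        have g1 := (hgood x hx).nonneg
        have g2 := (hgood x hx).le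
        have g3 := (hgood y hy).nonneg
        have g4 := (hgood y hy).le
        have h9 : |a - a'| ≤ |(a + W * sh x) - (a' + W * sh y)| + W * |sh x - sh y| := by
          have e : a - a' = ((a + W * sh x) - (a' + W * sh y)) - W * (sh x - sh y) := by ring
          rw [e]
          refine (abs_sub _ _).trans ?_
          rw [abs_mul, abs_of_pos hWpos]
        have h10 : |sh x - sh y| ≤ 1 - wd (l + 2) := by
          rw [abs_le]; constructor <;> linarith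
        nlinarith

end Pool.Agent.Cantor305
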