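import Pool.Agent.Cantor305.Choose

set_option autoImplicit false

open MeasureTheory Set Filter
open scoped ENNReal

namespace Pool.Agent.Cantor305

/-! ### the tubes of a configuration -/

/-- the tubes of a configuration, given by slope and intercept -/
def T : (n : ℕ) → Cfg n → Set (ℝ × ℝ)
  | 0, _ => {(0, 0)}
  | n + 1, c => ⋃ d : Fin 3, (fun t : ℝ × ℝ => ((bt (c d).1 + t.1) / 3, (((d : ℕ) : ℝ) + t.2) / 3)) ''
      T n (c d).2

theorem T_finite : ∀ (n : ℕ) (c : Cfg n), (T n c).Finite
  | 0, _ => finite_singleton _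
  | n + 1, c => finite_iUnion fun d => (T_finite n (c d).2).image _

theorem T_good : ∀ (n : ℕ) (c : Cfg n) (t : ℝ × ℝ), t ∈ T n c →
    Good n t.1 ∧ 0 ≤ t.2 ∧ t.2 + wd n ≤ 1
  | 0, _, t, ht => by
    have : t = (0, 0) := ht
    subst this
    exact ⟨good_zero 0, le_rfl, by simp [wd_zero]⟩
  | n + 1, c, t, ht => by
    obtain ⟨d, hd⟩ := mem_iUnion.mp ht
    obtain ⟨u, hu, rfl⟩ := hd
    obtain ⟨h1, h2, h3⟩ := T_good n _ u hu
    have hd0 : (0 : ℝ) ≤ (d : ℕ) := Nat.cast_nonneg _
    have hd2 : ((d : ℕ) : ℝ) ≤ 2 := by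
      have : (d : ℕ) ≤ 2 := by omega
      exact_mod_cast this
    refine ⟨?_, by show 0 ≤ (((d : ℕ) : ℝ) + u.2) / 3; positivity, ?_⟩
    · show Good (n + 1) ((bt (c d).1 + u.1) / 3)
      have hw : wd 1 = 1 / 3 := by simp [wd]
      unfold bt
      split_ifs
      · have := good_two.comp h1
        rw [hw, add_comm 1 n] at this
        convert this using 1
        ring
      · have := (good_zero 1).comp h1
        rw [hw, add_comm 1 n] at this
        convert this using 1
        ring
    · show (((d : ℕ) : ℝ) + u.2) / 3 + wd (n + 1) ≤ 1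
      rw [wd_succ]
      linarith

theorem N_pos_iff : ∀ (n : ℕ) (c : Cfg n) (x y : ℝ), 0 < N n c x y ↔
    ∃ t ∈ T n c, t.1 * x + t.2 ≤ y ∧ y < t.1 * x + t.2 + wd n
  | 0, c, x, y => by
    constructor
    · intro h
      have hy : y ∈ Ico (0 : ℝ) 1 := by
        by_contra hy
        have : N 0 c x y = 0 := indicator_of_notMem hy _
        rw [this] at h
        exact lt_irrefl _ h
      refine ⟨(0, 0), rfl, ?_, ?_⟩
      · simpa using hy.1
      · simpa [wd_zero] using hy.2
    · rintro ⟨t, ht, h1, h2⟩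
      have : t = (0, 0) := ht
      subst this
      have hy : y ∈ Ico (0 : ℝ) 1 := ⟨by simpa using h1, by simpa [wd_zero] using h2⟩
      show 0 < indicator (Ico (0 : ℝ) 1) (fun _ => (1 : ℝ)) y
      rw [indicator_of_mem hy]
      norm_num
  | n + 1, c, x, y => by
    have key : 0 < N (n + 1) c x y ↔
        ∃ d : Fin 3, 0 < N n (c d).2 x (3 * y - (d : ℕ) - bt (c d).1 * x) := by
      constructor
      · intro h
        obtain ⟨d, _, hd⟩ := Finset.exists_ne_zero_of_sum_ne_zero h.ne'
        exact ⟨d, lt_of_le_of_ne (N_nonneg n _ _ _) (Ne.symm hd)⟩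
      · rintro ⟨d, hd⟩
        exact lt_of_lt_of_le hd (Finset.single_le_sum
          (f := fun d : Fin 3 => N n (c d).2 x (3 * y - (d : ℕ) - bt (c d).1 * x))
          (fun d _ => N_nonneg n _ _ _) (Finset.mem_univ d))
    rw [key]
    constructor
    · rintro ⟨d, hd⟩
      obtain ⟨t, ht, h1, h2⟩ := (N_pos_iff n _ x _).mp hd
      refine ⟨_, mem_iUnion.mpr ⟨d, t, ht, rfl⟩, ?_, ?_⟩
      · show (bt (c d).1 + t.1) / 3 * x + (((d : ℕ) : ℝ) + t.2) / 3 ≤ y
        linarith
      · show y < (bt (c d).1 + t.1) / 3 * x + (((d : ℕ) : ℝ) + t.2) / 3 + wd (n + 1)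
        rw [wd_succ]
        linarith
    · rintro ⟨t, ht, h1, h2⟩
      obtain ⟨d, hd⟩ := mem_iUnion.mp ht
      obtain ⟨u, hu, rfl⟩ := hd
      refine ⟨d, (N_pos_iff n _ x _).mpr ⟨u, hu, ?_, ?_⟩⟩
      · change (bt (c d).1 + u.1) / 3 * x + (((d : ℕ) : ℝ) + u.2) / 3 ≤ y at h1
        linarith
      · change y < (bt (c d).1 + u.1) / 3 * x + (((d : ℕ) : ℝ) + u.2) / 3 + wd (n + 1) at h2
        rw [wd_succ] at h2
        linarith

/-! ### the two dimensional sets -/

/-- the union of the tubes over the abscissae in `[a, b]` -/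
def US (n : ℕ) (c : Cfg n) (a b : ℝ) : Set (ℝ × ℝ) :=
  {p | p.1 ∈ Icc a b ∧ 0 < N n c p.1 p.2}

theorem US_meas (n : ℕ) (c : Cfg n) (a b : ℝ) : MeasurableSet (US n c a b) := by
  apply MeasurableSet.inter
  · exact measurable_fst measurableSet_Icc
  · exact measurableSet_lt measurable_const (N_meas n c)

theorem US_vol (n : ℕ) (c : Cfg n) {a b : ℝ} (ha : 0 ≤ a) :
    volume (US n c a b) = ENNReal.ofReal (∫ x in Icc a b, uN n c x) := by
  rw [ofReal_integral_eq_lintegral_ofReal (uN_int n c ha)
    (Eventually.of_forall fun x => uN_nonneg n c x), Measure.volume_eq_prod,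
    Measure.prod_apply (US_meas n c a b), ← lintegral_indicator measurableSet_Icc]
  congr 1
  ext x
  by_cases hx : x ∈ Icc a b
  · rw [indicator_of_mem hx]
    have h1 : Prod.mk x ⁻¹' US n c a b = {y | 0 < N n c x y} := by
      ext y
      simp [US, hx.1, hx.2]
    have h2 : MeasurableSet {y | 0 < N n c x y} :=
      measurableSet_lt measurable_const (N_meas' n c x)
    have h3 : uN n c x = (volume {y | 0 < N n c x y}).toReal := by
      unfold uN
      have : (fun y => ind n c x y) = indicator {y | 0 < N n c x y} (fun _ => (1 : ℝ)) := by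
        ext y
        unfold ind indicator
        simp
      rw [this, integral_indicator h2]
      simp [Measure.real]
    rw [h1, h3, ENNReal.ofReal_toReal]
    have h4 : {y | 0 < N n c x y} ⊆ Icc 0 (1 + x) := by
      intro y hy
      have := N_supp n c (ha.trans hx.1) (ne_of_gt hy)
      exact ⟨this.1, this.2.le⟩
    exact ne_top_of_le_ne_top (by simp) (measure_mono h4)
  · rw [indicator_of_notMem hx]
    have h1 : Prod.mk x ⁻¹' US n c a b = ∅ := by
      ext y
      simp only [US, mem_preimage, mem_ofPred_eq, mem_empty_iff_false, iff_false, not_and]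
      intro h; exact absurd h hx
    rw [h1, measure_empty]

/-- the set scaled by `1 / 9` -/
def sc (E : Set (ℝ × ℝ)) : Set (ℝ × ℝ) := {q | (9 * q.1, 9 * q.2) ∈ E}

theorem sc_eq (E : Set (ℝ × ℝ)) : sc E = (fun q : ℝ × ℝ => (9 : ℝ) • q) ⁻¹' E := by
  ext q
  simp [sc, Prod.smul_def]

theorem sc_meas {E : Set (ℝ × ℝ)} (hE : MeasurableSet E) : MeasurableSet (sc E) := by
  rw [sc_eq]
  exact (measurable_const_smul (9 : ℝ)) hE

theorem sc_vol (E : Set (ℝ × ℝ)) : volume (sc E) = ENNReal.ofReal (1 / 81) * volume E := by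
  rw [sc_eq, Measure.addHaar_preimage_smul volume (by norm_num : (9 : ℝ) ≠ 0)]
  congr 2
  rw [Module.finrank_prod, Module.finrank_self]
  norm_num [abs_of_pos]

/-- the averaging lemma -/
theorem avg_place {S E D : Set (ℝ × ℝ)} (hS : MeasurableSet S) (hE : MeasurableSet E)
    (hD : MeasurableSet D) (hD0 : volume D ≠ 0) (hDf : volume D ≠ ∞) (hSf : volume S ≠ ∞)
    (hEf : volume E ≠ ∞) (hsub : ∀ v, ∀ p ∈ S, p - v ∈ E → v ∈ D) :
    ∃ v ∈ D, volume S * volume E ≤ volume (S ∩ {p | p - v ∈ E}) * volume D := by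
  set f : (ℝ × ℝ) → (ℝ × ℝ) → ℝ≥0∞ := fun v p =>
    S.indicator (fun _ => 1) p * E.indicator (fun _ => 1) (p - v) with hf
  have hmS : Measurable (S.indicator (fun _ => (1 : ℝ≥0∞))) := measurable_const.indicator hS
  have hmE : Measurable (E.indicator (fun _ => (1 : ℝ≥0∞))) := measurable_const.indicator hE
  have hmf : Measurable (Function.uncurry f) := by
    apply Measurable.mul
    · exact hmS.comp measurable_snd
    · exact hmE.comp (measurable_snd.sub measurable_fst)
  have hg : ∀ v, volume (S ∩ {p | p - v ∈ E}) = ∫⁻ p, f v p := by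
    intro v
    have hm : MeasurableSet (S ∩ {p | p - v ∈ E}) :=
      hS.inter ((measurable_id.sub_const v) hE)
    rw [← lintegral_indicator_one hm]
    congr 1
    ext p
    by_cases h1 : p ∈ S
    · by_cases h2 : p - v ∈ E
      · rw [indicator_of_mem (show p ∈ S ∩ {p | p - v ∈ E} from ⟨h1, h2⟩)]
        simp [hf, h1, h2]
      · rw [indicator_of_notMem (fun h => h2 h.2)]
        simp [hf, h2]
    · rw [indicator_of_notMem (fun h => h1 h.1)]
      simp [hf, h1]
  have htot : ∫⁻ v, volume (S ∩ {p | p - v ∈ E}) = volume S * volume E := by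
    simp_rw [hg]
    rw [lintegral_lintegral_swap hmf.aemeasurable]
    have h1 : ∀ p, ∫⁻ v, f v p = S.indicator (fun _ => 1) p * volume E := by
      intro p
      show ∫⁻ v, S.indicator (fun _ => 1) p * E.indicator (fun _ => 1) (p - v) = _
      have hm : Measurable (fun v : ℝ × ℝ => E.indicator (fun _ => (1 : ℝ≥0∞)) (p - v)) :=
        hmE.comp (measurable_const.sub measurable_id)
      rw [lintegral_const_mul _ hm,
        lintegral_sub_left_eq_self (fun w => E.indicator (fun _ => (1 : ℝ≥0∞)) w) p]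
      congr 1
      exact lintegral_indicator_one hE
    simp_rw [h1]
    rw [lintegral_mul_const _ hmS]
    congr 1
    exact lintegral_indicator_one hS
  have hrest : ∫⁻ v in D, volume (S ∩ {p | p - v ∈ E}) = volume S * volume E := by
    rw [← htot, ← lintegral_indicator hD]
    congr 1
    ext v
    by_cases hv : v ∈ D
    · rw [indicator_of_mem hv]
    · rw [indicator_of_notMem hv]
      symm
      have : S ∩ {p | p - v ∈ E} = ∅ := by
        ext p
        simp only [mem_inter_iff, mem_ofPred_eq, mem_empty_iff_false, iff_false, not_and]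
        intro hp h
        exact hv (hsub v p hp h)
      rw [this, measure_empty]
  obtain ⟨v, hv, hle⟩ := exists_setLAverage_le (f := fun v => volume (S ∩ {p | p - v ∈ E}))
    hD0 hD.nullMeasurableSet (by rw [hrest]; exact ENNReal.mul_ne_top hSf hEf)
  refine ⟨v, hv, ?_⟩
  rw [setLAverage_eq, hrest] at hle
  rwa [ENNReal.div_le_iff hD0 hDf] at hle

end Pool.Agent.Cantor305
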