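import Pool.Agent.Cantor305.Avg
import Pool.Agent.Cantor305.Digits

set_option autoImplicit false

open MeasureTheory Set

namespace Pool.Agent.Cantor305

/-- random configurations of depth `n` -/
def Cfg : ℕ → Type
  | 0 => Unit
  | n + 1 => Fin 3 → Bool × Cfg n

noncomputable instance cfgFintype : (n : ℕ) → Fintype (Cfg n)
  | 0 => inferInstanceAs (Fintype Unit)
  | n + 1 =>
    haveI := cfgFintype n
    inferInstanceAs (Fintype (Fin 3 → Bool × Cfg n))

instance cfgNonempty : (n : ℕ) → Nonempty (Cfg n)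
  | 0 => inferInstanceAs (Nonempty Unit)
  | n + 1 =>
    haveI := cfgNonempty n
    inferInstanceAs (Nonempty (Fin 3 → Bool × Cfg n))

/-- the ternary digit `0` or `2` -/
def bt (b : Bool) : ℝ := if b then 2 else 0

theorem bt_nonneg (b : Bool) : 0 ≤ bt b := by unfold bt; split_ifs <;> norm_num

theorem bt_le (b : Bool) : bt b ≤ 2 := by unfold bt; split_ifs <;> norm_num

/-- the number of tubes of the configuration containing `y` on the slice `x` -/
noncomputable def N : (n : ℕ) → Cfg n → ℝ → ℝ → ℝ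
  | 0, _, _, y => indicator (Ico (0 : ℝ) 1) (fun _ => 1) y
  | n + 1, c, x, y => ∑ d : Fin 3, N n (c d).2 x (3 * y - (d : ℕ) - bt (c d).1 * x)

theorem N_nonneg : ∀ (n : ℕ) (c : Cfg n) (x y : ℝ), 0 ≤ N n c x y
  | 0, _, _, y => by
    unfold N
    exact indicator_nonneg (fun _ _ => zero_le_one) _
  | n + 1, c, x, y => Finset.sum_nonneg fun d _ => N_nonneg n _ _ _

theorem N_meas : ∀ (n : ℕ) (c : Cfg n), Measurable (fun p : ℝ × ℝ => N n c p.1 p.2)
  | 0, _ => by
    have : Measurable (indicator (Ico (0 : ℝ) 1) (fun _ => (1 : ℝ))) :=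
      measurable_const.indicator measurableSet_Ico
    exact this.comp measurable_snd
  | n + 1, c => by
    refine Finset.measurable_fun_sum _ fun d _ => ?_
    have h1 : Measurable (fun p : ℝ × ℝ => ((p.1, 3 * p.2 - (d : ℕ) - bt (c d).1 * p.1) : ℝ × ℝ)) := by
      fun_prop
    exact (N_meas n (c d).2).comp h1

theorem N_meas' (n : ℕ) (c : Cfg n) (x : ℝ) : Measurable (fun y => N n c x y) := by
  have h1 : Measurable (fun y : ℝ => ((x, y) : ℝ × ℝ)) := by fun_prop
  exact (N_meas n c).comp h1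

theorem N_supp : ∀ (n : ℕ) (c : Cfg n) {x y : ℝ}, 0 ≤ x → N n c x y ≠ 0 → 0 ≤ y ∧ y < 1 + x
  | 0, _, x, y, hx, h => by
    have : y ∈ Ico (0 : ℝ) 1 := by
      by_contra hy
      exact h (indicator_of_notMem hy _)
    exact ⟨this.1, by linarith [this.2]⟩
  | n + 1, c, x, y, hx, h => by
    obtain ⟨d, _, hd⟩ := Finset.exists_ne_zero_of_sum_ne_zero h
    have h1 := N_supp n _ hx hd
    have hb := bt_nonneg (c d).1
    have hb2 := bt_le (c d).1
    have hd0 : (0 : ℝ) ≤ (d : ℕ) := Nat.cast_nonneg _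
    have hd2 : ((d : ℕ) : ℝ) ≤ 2 := by
      have : (d : ℕ) ≤ 2 := by omega
      exact_mod_cast this
    have h2 : 0 ≤ bt (c d).1 * x := by positivity
    have h3 : bt (c d).1 * x ≤ 2 * x := mul_le_mul_of_nonneg_right hb2 hx
    constructor
    · linarith [h1.1]
    · linarith [h1.2]

theorem N_bdd : ∀ (n : ℕ) (c : Cfg n) (x y : ℝ), N n c x y ≤ 3 ^ n
  | 0, _, _, y => by
    unfold N
    rw [pow_zero]
    exact indicator_le_self' (fun _ _ => zero_le_one) _ |>.trans le_rfl
  | n + 1, c, x, y => by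
    unfold N
    calc ∑ d : Fin 3, N n (c d).2 x (3 * y - (d : ℕ) - bt (c d).1 * x) ≤ ∑ d : Fin 3, (3 : ℝ) ^ n :=
          Finset.sum_le_sum fun d _ => N_bdd n _ _ _
      _ = 3 ^ (n + 1) := by simp [pow_succ]; ring

theorem int_of {f : ℝ → ℝ} {B a b : ℝ} (hf : Measurable f) (hb : ∀ y, |f y| ≤ B)
    (hs : ∀ y, y ∉ Icc a b → f y = 0) : Integrable f := by
  have h1 : IntegrableOn f (Icc a b) := by
    apply Measure.integrableOn_of_bounded (M := B) (by simp) hf.aestronglyMeasurable
    exact Filter.Eventually.of_forall fun y => by rw [Real.norm_eq_abs]; exact hb y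
  rwa [integrableOn_iff_integrable_of_support_subset] at h1
  intro y hy
  by_contra h
  exact hy (hs y h)

theorem N_int (n : ℕ) (c : Cfg n) {x : ℝ} (hx : 0 ≤ x) : Integrable (fun y => N n c x y) := by
  refine int_of (B := 3 ^ n) (a := 0) (b := 1 + x) (N_meas' n c x) (fun y => ?_) fun y hy => ?_
  · rw [abs_of_nonneg (N_nonneg n c x y)]; exact N_bdd n c x y
  · by_contra h
    have := N_supp n c hx h
    exact hy ⟨this.1, this.2.le⟩

theorem N_sq_int (n : ℕ) (c : Cfg n) {x : ℝ} (hx : 0 ≤ x) :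
    Integrable (fun y => N n c x y ^ 2) := by
  refine int_of (B := (3 ^ n) ^ 2) (a := 0) (b := 1 + x) ((N_meas' n c x).pow_const 2)
    (fun y => ?_) fun y hy => ?_
  · rw [abs_of_nonneg (by positivity)]
    exact pow_le_pow_left₀ (N_nonneg n c x y) (N_bdd n c x y) 2
  · by_contra h
    have h' : N n c x y ≠ 0 := by
      intro h0; rw [h0] at h; simp at h
    have := N_supp n c hx h'
    exact hy ⟨this.1, this.2.le⟩

/-- change of variables -/
theorem cov (g : ℝ → ℝ) (a : ℝ) : ∫ y, g (3 * y - a) = (1 / 3) * ∫ y, g y := by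
  have h1 := Measure.integral_comp_mul_left (fun u => g (u - a)) 3
  rw [h1, integral_sub_right_eq_self (fun u => g u) a]
  norm_num [abs_of_pos]

theorem cov_int {g : ℝ → ℝ} (hg : Integrable g) (a : ℝ) : Integrable (fun y => g (3 * y - a)) :=
  (hg.comp_sub_right a).comp_mul_left' (by norm_num)

theorem N_integral : ∀ (n : ℕ) (c : Cfg n) {x : ℝ}, 0 ≤ x → ∫ y, N n c x y = 1
  | 0, _, x, _ => by
    show ∫ y, indicator (Ico (0 : ℝ) 1) (fun _ => (1 : ℝ)) y = 1
    rw [integral_indicator measurableSet_Ico]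
    simp
  | n + 1, c, x, hx => by
    have h1 : ∀ d : Fin 3, Integrable
        (fun y => N n (c d).2 x (3 * y - (d : ℕ) - bt (c d).1 * x)) := by
      intro d
      have := cov_int (N_int n (c d).2 hx) ((d : ℕ) + bt (c d).1 * x)
      refine this.congr (Filter.Eventually.of_forall fun y => ?_)
      show _ = _
      congr 1
      ring
    show ∫ y, ∑ d : Fin 3, N n (c d).2 x (3 * y - (d : ℕ) - bt (c d).1 * x) = 1
    rw [integral_finsetSum _ fun d _ => h1 d]
    have h2 : ∀ d : Fin 3, ∫ y, N n (c d).2 x (3 * y - (d : ℕ) - bt (c d).1 * x) = 1 / 3 := by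
      intro d
      have := cov (fun u => N n (c d).2 x u) ((d : ℕ) + bt (c d).1 * x)
      rw [N_integral n (c d).2 hx, mul_one] at this
      rw [← this]
      congr 1
      ext y
      ring_nf
    rw [Finset.sum_congr rfl fun d _ => h2 d]
    simp

/-- the indicator function of the union of the tubes -/
noncomputable def ind (n : ℕ) (c : Cfg n) (x y : ℝ) : ℝ := if 0 < N n c x y then 1 else 0

theorem ind_nonneg (n : ℕ) (c : Cfg n) (x y : ℝ) : 0 ≤ ind n c x y := by
  unfold ind; split_ifs <;> norm_num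

theorem ind_le (n : ℕ) (c : Cfg n) (x y : ℝ) : ind n c x y ≤ 1 := by
  unfold ind; split_ifs <;> norm_num

theorem ind_meas (n : ℕ) (c : Cfg n) : Measurable (fun p : ℝ × ℝ => ind n c p.1 p.2) := by
  unfold ind
  exact Measurable.ite (measurableSet_lt measurable_const (N_meas n c)) measurable_const
    measurable_const

theorem ind_meas' (n : ℕ) (c : Cfg n) (x : ℝ) : Measurable (fun y => ind n c x y) := by
  have h1 : Measurable (fun y : ℝ => ((x, y) : ℝ × ℝ)) := by fun_prop
  exact (ind_meas n c).comp h1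

theorem ind_supp (n : ℕ) (c : Cfg n) {x y : ℝ} (hx : 0 ≤ x) (h : ind n c x y ≠ 0) :
    0 ≤ y ∧ y < 1 + x := by
  apply N_supp n c hx
  unfold ind at h
  intro h0
  rw [h0] at h
  simp at h

theorem ind_int (n : ℕ) (c : Cfg n) {x : ℝ} (hx : 0 ≤ x) : Integrable (fun y => ind n c x y) := by
  refine int_of (B := 1) (a := 0) (b := 1 + x) (ind_meas' n c x) (fun y => ?_) fun y hy => ?_
  · rw [abs_of_nonneg (ind_nonneg n c x y)]; exact ind_le n c x y
  · by_contra h
    have := ind_supp n c hx h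
    exact hy ⟨this.1, this.2.le⟩

theorem ind_rec (n : ℕ) (c : Cfg (n + 1)) (x y : ℝ) :
    1 - ind (n + 1) c x y =
      ∏ d : Fin 3, (1 - ind n (c d).2 x (3 * y - (d : ℕ) - bt (c d).1 * x)) := by
  by_cases h : 0 < N (n + 1) c x y
  · have h1 : ind (n + 1) c x y = 1 := if_pos h
    obtain ⟨d, _, hd⟩ := Finset.exists_ne_zero_of_sum_ne_zero h.ne'
    have hd' : 0 < N n (c d).2 x (3 * y - (d : ℕ) - bt (c d).1 * x) :=
      lt_of_le_of_ne (N_nonneg n _ _ _) (Ne.symm hd)
    rw [h1, sub_self, Finset.prod_eq_zero (Finset.mem_univ d)]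
    unfold ind
    rw [if_pos hd', sub_self]
  · have h1 : ind (n + 1) c x y = 0 := if_neg h
    have h0 : N (n + 1) c x y = 0 := le_antisymm (not_lt.mp h) (N_nonneg _ _ _ _)
    have h2 := (Finset.sum_eq_zero_iff_of_nonneg (fun d _ => N_nonneg n (c d).2 x
      (3 * y - (d : ℕ) - bt (c d).1 * x))).mp h0
    rw [h1, sub_zero, Finset.prod_eq_one]
    intro d hd
    unfold ind
    rw [h2 d hd, if_neg (lt_irrefl _), sub_zero]

/-- the probability that `(x, y)` is covered -/
noncomputable def P (n : ℕ) (x y : ℝ) : ℝ := A (fun c : Cfg n => ind n c x y)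

theorem P_nonneg (n : ℕ) (x y : ℝ) : 0 ≤ P n x y := A_nonneg fun c => ind_nonneg n c x y

theorem P_le (n : ℕ) (x y : ℝ) : P n x y ≤ 1 := by
  have := A_mono (fun c => ind_le n c x y)
  rwa [A_const] at this

theorem P_supp (n : ℕ) {x y : ℝ} (hx : 0 ≤ x) (h : P n x y ≠ 0) : 0 ≤ y ∧ y < 1 + x := by
  by_contra hcon
  apply h
  unfold P
  have : (fun c : Cfg n => ind n c x y) = fun _ => 0 := by
    ext c
    by_contra h1
    exact hcon (ind_supp n c hx h1)
  rw [this, A_const]

theorem P_meas' (n : ℕ) (x : ℝ) : Measurable (fun y => P n x y) :=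
  A_measurable fun c => ind_meas' n c x

theorem P_int (n : ℕ) {x : ℝ} (hx : 0 ≤ x) : Integrable (fun y => P n x y) :=
  A_integrable fun c => ind_int n c hx

/-- the probability of being covered by the `d`-th child -/
noncomputable def pd (n : ℕ) (x y : ℝ) (d : Fin 3) : ℝ :=
  (P n x (3 * y - (d : ℕ)) + P n x (3 * y - (d : ℕ) - 2 * x)) / 2

theorem P_rec (n : ℕ) (x y : ℝ) : P (n + 1) x y = 1 - ∏ d : Fin 3, (1 - pd n x y d) := by
  have h1 : 1 - P (n + 1) x y = ∏ d : Fin 3, (1 - pd n x y d) := by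
    have h2 : 1 - P (n + 1) x y = A (fun c : Cfg (n + 1) => 1 - ind (n + 1) c x y) := by
      unfold P; rw [A_sub, A_const]
    rw [h2]
    have h3 : (fun c : Cfg (n + 1) => 1 - ind (n + 1) c x y) = fun c : Fin 3 → Bool × Cfg n =>
        ∏ d : Fin 3, (fun (d : Fin 3) (q : Bool × Cfg n) =>
          1 - ind n q.2 x (3 * y - (d : ℕ) - bt q.1 * x)) d (c d) := by
      ext c
      exact ind_rec n c x y
    rw [h3]
    have h4 := A_pi (ι := Fin 3) (fun (d : Fin 3) (q : Bool × Cfg n) =>
          1 - ind n q.2 x (3 * y - (d : ℕ) - bt q.1 * x))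
    refine h4.trans (Finset.prod_congr rfl fun d _ => ?_)
    rw [A_sub, A_const, A_bool]
    unfold pd P
    simp [bt]
  linarith

end Pool.Agent.Cantor305
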