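import Pool.Agent.Cantor305.Place

set_option autoImplicit false

open MeasureTheory Set Filter
open scoped ENNReal

namespace Pool.Agent.Cantor305

/-- the part of the tube `t` over `[3/4, 7/8]` -/
def cv (m : ℕ) (t : ℝ × ℝ) : Set (ℝ × ℝ) :=
  {p | (3 / 4 ≤ p.1 ∧ p.1 ≤ 7 / 8) ∧ t.1 * p.1 + t.2 + 2 * wd m ≤ p.2 ∧
    p.2 ≤ t.1 * p.1 + t.2 + 11 * wd m}

/-- the fat tube `t` over `[1, 2]` -/
def nn (m : ℕ) (t : ℝ × ℝ) : Set (ℝ × ℝ) :=
  {p | (1 ≤ p.1 ∧ p.1 ≤ 2) ∧ t.1 * p.1 + t.2 ≤ p.2 ∧ p.2 ≤ t.1 * p.1 + t.2 + 14 * wd m}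

/-- admissible tubes -/
def Valid (m : ℕ) (t : ℝ × ℝ) : Prop := Good m t.1 ∧ 0 ≤ t.2 ∧ t.2 + 12 * wd m ≤ 12

/-- the target region -/
def Om : Set (ℝ × ℝ) := Icc (3 / 4) (7 / 8) ×ˢ Icc 2 11

/-- the positions of the configurations -/
def D : Set (ℝ × ℝ) := Icc (5 / 8) (7 / 8) ×ˢ Icc (3 / 2) 11

theorem Om_vol : volume Om = ENNReal.ofReal (9 / 8) := by
  unfold Om
  rw [Measure.volume_eq_prod, Measure.prod_prod, Real.volume_Icc, Real.volume_Icc,
    ← ENNReal.ofReal_mul (by norm_num)]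
  norm_num

theorem D_vol : volume D = ENNReal.ofReal (19 / 8) := by
  unfold D
  rw [Measure.volume_eq_prod, Measure.prod_prod, Real.volume_Icc, Real.volume_Icc,
    ← ENNReal.ofReal_mul (by norm_num)]
  norm_num

theorem Om_meas : MeasurableSet Om := measurableSet_Icc.prod measurableSet_Icc

theorem D_meas : MeasurableSet D := measurableSet_Icc.prod measurableSet_Icc

theorem cv_meas (m : ℕ) (t : ℝ × ℝ) : MeasurableSet (cv m t) := by
  apply MeasurableSet.inter
  · exact (measurableSet_le measurable_const measurable_fst).inter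
      (measurableSet_le measurable_fst measurable_const)
  · apply MeasurableSet.inter
    · exact measurableSet_le (by fun_prop) measurable_snd
    · exact measurableSet_le measurable_snd (by fun_prop)

theorem nn_meas (m : ℕ) (t : ℝ × ℝ) : MeasurableSet (nn m t) := by
  apply MeasurableSet.inter
  · exact (measurableSet_le measurable_const measurable_fst).inter
      (measurableSet_le measurable_fst measurable_const)
  · apply MeasurableSet.inter
    · exact measurableSet_le (by fun_prop) measurable_snd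
    · exact measurableSet_le measurable_snd (by fun_prop)

/-- the placed tubes -/
def pc (n : ℕ) (c : Cfg n) (v : ℝ × ℝ) : Set (ℝ × ℝ) :=
  (fun t : ℝ × ℝ => (t.1, v.2 + t.2 / 9 - t.1 * v.1 - 2 * wd (n + 4))) '' T n c

theorem wd_four (n : ℕ) : wd (n + 4) = wd n / 81 := by
  rw [wd_add]; norm_num [wd]; ring

theorem pc_finite (n : ℕ) (c : Cfg n) (v : ℝ × ℝ) : (pc n c v).Finite := (T_finite n c).image _

theorem pc_valid (n : ℕ) (c : Cfg n) {v : ℝ × ℝ} (hv : v ∈ D) {t : ℝ × ℝ} (ht : t ∈ pc n c v) :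
    Valid (n + 4) t := by
  obtain ⟨u, hu, rfl⟩ := ht
  obtain ⟨⟨h1, h2⟩, h3, h4⟩ := hv
  obtain ⟨g, g0, g1⟩ := T_good n c u hu
  have hs1 : u.1 ≤ 1 := by have := g.le; have := wd_pos n; linarith
  have hs0 := g.nonneg
  have hw : wd n ≤ 1 := wd_le_one n
  have hwp := wd_pos n
  have e1 : 0 ≤ u.1 * v.1 := mul_nonneg hs0 (by linarith)
  have e2 : u.1 * v.1 ≤ 7 / 8 := by nlinarith
  refine ⟨g.mono 4, ?_, ?_⟩
  · show 0 ≤ v.2 + u.2 / 9 - u.1 * v.1 - 2 * wd (n + 4)
    rw [wd_four]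
    linarith
  · show v.2 + u.2 / 9 - u.1 * v.1 - 2 * wd (n + 4) + 12 * wd (n + 4) ≤ 12
    rw [wd_four]
    linarith

theorem pc_cov (n : ℕ) (c : Cfg n) (v : ℝ × ℝ) :
    Om ∩ {p | p - v ∈ sc (US n c 0 1)} ⊆ ⋃ t ∈ pc n c v, cv (n + 4) t := by
  rintro p ⟨⟨h1, h2⟩, h3⟩
  obtain ⟨h4, h5⟩ := h3
  change 0 < N n c (9 * (p.1 - v.1)) (9 * (p.2 - v.2)) at h5
  obtain ⟨t, ht, h6, h7⟩ := (N_pos_iff n c _ _).mp h5
  rw [mem_iUnion₂]
  refine ⟨_, ⟨t, ht, rfl⟩, ⟨h1.1, h1.2⟩, ?_, ?_⟩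
  · show t.1 * p.1 + (v.2 + t.2 / 9 - t.1 * v.1 - 2 * wd (n + 4)) + 2 * wd (n + 4) ≤ p.2
    linarith
  · show p.2 ≤ t.1 * p.1 + (v.2 + t.2 / 9 - t.1 * v.1 - 2 * wd (n + 4)) + 11 * wd (n + 4)
    rw [wd_four]
    linarith

theorem pc_inn (n : ℕ) (c : Cfg n) {v : ℝ × ℝ} (hv : v ∈ D) :
    volume (⋃ t ∈ pc n c v, nn (n + 4) t) ≤ 3 * volume (sc (US n c 1 13)) := by
  obtain ⟨⟨hv1, hv2⟩, hv3, hv4⟩ := hv
  set E := sc (US n c 1 13) with hE
  have hsub : (⋃ t ∈ pc n c v, nn (n + 4) t) ⊆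
      ((fun p => p - (v + (0, -(wd n / 9)))) ⁻¹' E ∪ (fun p => p - v) ⁻¹' E) ∪
      (fun p => p - (v + (0, wd n / 9))) ⁻¹' E := by
    intro p hp
    rw [mem_iUnion₂] at hp
    obtain ⟨_, ⟨t, ht, rfl⟩, ⟨h1, h2⟩, h3, h4⟩ := hp
    change t.1 * p.1 + (v.2 + t.2 / 9 - t.1 * v.1 - 2 * wd (n + 4)) ≤ p.2 at h3
    change p.2 ≤ t.1 * p.1 + (v.2 + t.2 / 9 - t.1 * v.1 - 2 * wd (n + 4)) + 14 * wd (n + 4) at h4
    rw [wd_four] at h3 h4
    have hwp := wd_pos n
    have key : ∀ z : ℝ, t.1 * (9 * (p.1 - v.1)) + t.2 ≤ 9 * (p.2 - z) →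
        9 * (p.2 - z) < t.1 * (9 * (p.1 - v.1)) + t.2 + wd n →
        (9 * (p.1 - v.1), 9 * (p.2 - z)) ∈ US n c 1 13 := by
      intro z hz1 hz2
      refine ⟨⟨?_, ?_⟩, (N_pos_iff n c _ _).mpr ⟨t, ht, hz1, hz2⟩⟩
      · show 1 ≤ 9 * (p.1 - v.1)
        linarith
      · show 9 * (p.1 - v.1) ≤ 13
        linarith
    by_cases hA : 9 * (p.2 - v.2) < t.1 * (9 * (p.1 - v.1)) + t.2
    · left; left
      show (9 * (p.1 - (v.1 + 0)), 9 * (p.2 - (v.2 + -(wd n / 9)))) ∈ US n c 1 13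
      rw [add_zero]
      apply key
      · linarith
      · linarith
    · by_cases hB : 9 * (p.2 - v.2) < t.1 * (9 * (p.1 - v.1)) + t.2 + wd n
      · left; right
        exact key v.2 (not_lt.mp hA) hB
      · right
        show (9 * (p.1 - (v.1 + 0)), 9 * (p.2 - (v.2 + wd n / 9))) ∈ US n c 1 13
        rw [add_zero]
        apply key
        · linarith
        · linarith
  have htr : ∀ w : ℝ × ℝ, volume ((fun p => p - w) ⁻¹' E) = volume E := fun w =>
    (measurePreserving_sub_right volume w).measure_preimage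
      (sc_meas (US_meas n c 1 13)).nullMeasurableSet
  calc volume (⋃ t ∈ pc n c v, nn (n + 4) t) ≤ _ := measure_mono hsub
    _ ≤ (volume ((fun p => p - (v + (0, -(wd n / 9)))) ⁻¹' E) +
        volume ((fun p => p - v) ⁻¹' E)) + volume ((fun p => p - (v + (0, wd n / 9))) ⁻¹' E) :=
      (measure_union_le _ _).trans (by gcongr; exact measure_union_le _ _)
    _ = 3 * volume E := by
      rw [htr, htr, htr]; ring

theorem sub_D {n : ℕ} {c : Cfg n} {v p : ℝ × ℝ} (hp : p ∈ Om) (h : p - v ∈ sc (US n c 0 1)) :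
    v ∈ D := by
  obtain ⟨⟨h1, h2⟩, h3, h4⟩ := hp
  obtain ⟨⟨h5, h6⟩, h7⟩ := h
  change 0 ≤ 9 * (p.1 - v.1) at h5
  change 9 * (p.1 - v.1) ≤ 1 at h6
  change 0 < N n c (9 * (p.1 - v.1)) (9 * (p.2 - v.2)) at h7
  have h8 := N_supp n c h5 (ne_of_gt h7)
  refine ⟨⟨?_, ?_⟩, ?_, ?_⟩ <;> linarith [h8.1, h8.2]

/-- the uncovered set -/
def Unc (E : Set (ℝ × ℝ)) (V : Finset (ℝ × ℝ)) : Set (ℝ × ℝ) := Om \ ⋃ v ∈ V, {p | p - v ∈ E}

theorem Unc_meas {E : Set (ℝ × ℝ)} (hE : MeasurableSet E) (V : Finset (ℝ × ℝ)) :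
    MeasurableSet (Unc E V) := by
  apply Om_meas.diff
  exact Finset.measurableSet_biUnion _ fun v _ => (measurable_id.sub_const v) hE

theorem Om_ne_top : volume Om ≠ ∞ := by rw [Om_vol]; exact ENNReal.ofReal_ne_top

theorem Unc_ne_top (E : Set (ℝ × ℝ)) (V : Finset (ℝ × ℝ)) : volume (Unc E V) ≠ ∞ :=
  ne_top_of_le_ne_top Om_ne_top (measure_mono sdiff_subset)

theorem greedy {n : ℕ} {c : Cfg n} {η : ℝ} (hη : 0 < η)
    (hfin : volume (sc (US n c 0 1)) ≠ ∞) (k : ℕ) :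
    ∃ V : Finset (ℝ × ℝ), (∀ v ∈ V, v ∈ D) ∧ V.card ≤ k ∧
      (volume (Unc (sc (US n c 0 1)) V)).toReal ≤
        max η (9 / 8 - k * (η * (volume (sc (US n c 0 1))).toReal / (19 / 8))) := by
  classical
  set E := sc (US n c 0 1) with hE
  have hEm : MeasurableSet E := sc_meas (US_meas n c 0 1)
  set e := (volume E).toReal with he
  induction k with
  | zero =>
    refine ⟨∅, by simp, by simp, ?_⟩
    apply le_max_of_le_right
    have h1 : (volume (Unc E ∅)).toReal ≤ (volume Om).toReal :=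
      ENNReal.toReal_mono Om_ne_top (measure_mono sdiff_subset)
    rw [Om_vol, ENNReal.toReal_ofReal (by norm_num)] at h1
    simpa using h1
  | succ k ih =>
    obtain ⟨V, hVD, hVk, hV⟩ := ih
    by_cases hle : (volume (Unc E V)).toReal ≤ η
    · exact ⟨V, hVD, by omega, le_max_of_le_left hle⟩
    · push Not at hle
      obtain ⟨v, hvD, hv⟩ := avg_place (Unc_meas hEm V) hEm D_meas
        (by rw [D_vol]; simp) (by rw [D_vol]; exact ENNReal.ofReal_ne_top)
        (Unc_ne_top E V) hfin (fun v p hp h => sub_D hp.1 h)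
      have hint_ne : volume (Unc E V ∩ {p | p - v ∈ E}) ≠ ∞ :=
        ne_top_of_le_ne_top (Unc_ne_top E V) (measure_mono inter_subset_left)
      have hv' : (volume (Unc E V)).toReal * e ≤
          (volume (Unc E V ∩ {p | p - v ∈ E})).toReal * (19 / 8) := by
        have := ENNReal.toReal_mono (ENNReal.mul_ne_top hint_ne
          (by rw [D_vol]; exact ENNReal.ofReal_ne_top)) hv
        rw [ENNReal.toReal_mul, ENNReal.toReal_mul, D_vol,
          ENNReal.toReal_ofReal (by norm_num)] at this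
        exact this
      have hnew : Unc E (insert v V) = Unc E V \ (Unc E V ∩ {p | p - v ∈ E}) := by
        ext p
        simp only [Unc, Finset.mem_insert, iUnion_iUnion_eq_or_left, Set.mem_sdiff, mem_union,
          mem_inter_iff, not_or, not_and]
        tauto
      have hvol : (volume (Unc E (insert v V))).toReal =
          (volume (Unc E V)).toReal - (volume (Unc E V ∩ {p | p - v ∈ E})).toReal := by
        have hmI : MeasurableSet (Unc E V ∩ {p | p - v ∈ E}) :=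
          (Unc_meas hEm V).inter ((measurable_id.sub_const v) hEm)
        rw [hnew, measure_sdiff inter_subset_left hmI.nullMeasurableSet hint_ne,
          ENNReal.toReal_sub_of_le (measure_mono inter_subset_left) (Unc_ne_top E V)]
      refine ⟨insert v V, ?_, ?_, ?_⟩
      · intro w hw
        rcases Finset.mem_insert.mp hw with rfl | hw
        · exact hvD
        · exact hVD w hw
      · exact (Finset.card_insert_le _ _).trans (by omega)
      · apply le_max_of_le_right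
        have h1 : (volume (Unc E V)).toReal ≤ 9 / 8 - k * (η * e / (19 / 8)) := by
          rcases le_max_iff.mp hV with h | h
          · linarith
          · exact h
        have h2 : η * e / (19 / 8) ≤ (volume (Unc E V ∩ {p | p - v ∈ E})).toReal := by
          rw [div_le_iff₀ (by norm_num)]
          refine le_trans ?_ hv'
          exact mul_le_mul_of_nonneg_right hle.le ENNReal.toReal_nonneg
        rw [hvol]
        push_cast
        linarith

theorem ext_le (n : ℕ) (c : Cfg n) : ∫ x in Icc (0 : ℝ) 1, uN n c x ≤ 2 := by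
  have h1 : ∫ x in Icc (0 : ℝ) 1, uN n c x ≤ ∫ x in Icc (0 : ℝ) 1, (2 : ℝ) := by
    apply setIntegral_mono_on (uN_int n c le_rfl) (by simp) measurableSet_Icc
    intro x hx
    have := uN_le n c hx.1
    linarith [hx.2]
  simpa using h1

/-- **the step lemma** -/
theorem step {ε η : ℝ} (hε : 0 < ε) (hη : 0 < η) (k0 : ℕ) :
    ∃ m ≥ k0, ∃ F : Finset (ℝ × ℝ), (∀ t ∈ F, Valid m t) ∧
      volume (⋃ t ∈ F, nn m t) ≤ ENNReal.ofReal ε ∧
      volume (Om \ ⋃ t ∈ F, cv m t) ≤ ENNReal.ofReal η := by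
  classical
  set R : ℝ := 3 * ((9 / 8) * (19 / 8) / η + 1) / ε with hR
  have hRpos : 0 < R := by positivity
  obtain ⟨n, hn, c, hc⟩ := exists_cfg hRpos k0
  set i := ∫ x in Icc (1 : ℝ) 13, uN n c x with hi
  set e := ∫ x in Icc (0 : ℝ) 1, uN n c x with he
  have hi0 : 0 ≤ i := setIntegral_nonneg measurableSet_Icc fun x _ => uN_nonneg n c x
  have he0 : 0 < e := lt_of_le_of_lt (by positivity) hc
  have he2 : e ≤ 2 := ext_le n c
  have hvE : volume (sc (US n c 0 1)) = ENNReal.ofReal (1 / 81 * e) := by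
    rw [sc_vol, US_vol n c le_rfl, ← ENNReal.ofReal_mul (by norm_num)]
  have hvI : volume (sc (US n c 1 13)) = ENNReal.ofReal (1 / 81 * i) := by
    rw [sc_vol, US_vol n c zero_le_one, ← ENNReal.ofReal_mul (by norm_num)]
  have hEtop : volume (sc (US n c 0 1)) ≠ ∞ := by rw [hvE]; exact ENNReal.ofReal_ne_top
  have hEr : (volume (sc (US n c 0 1))).toReal = 1 / 81 * e := by
    rw [hvE, ENNReal.toReal_ofReal (by positivity)]
  set δ : ℝ := η * (1 / 81 * e) / (19 / 8) with hδ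
  have hδpos : 0 < δ := by positivity
  set k := ⌈(9 / 8) / δ⌉₊ with hk
  have hk1 : (9 / 8) / δ ≤ k := Nat.le_ceil _
  have hk2 : (k : ℝ) < (9 / 8) / δ + 1 := Nat.ceil_lt_add_one (by positivity)
  obtain ⟨V, hVD, hVk, hV⟩ := greedy hη hEtop k
  rw [hEr] at hV
  have hVη : (volume (Unc (sc (US n c 0 1)) V)).toReal ≤ η := by
    refine hV.trans (max_le le_rfl ?_)
    have : 9 / 8 ≤ k * δ := by rwa [div_le_iff₀ hδpos] at hk1
    rw [hδ] at this
    linarith
  have hfin : (⋃ v ∈ V, pc n c v).Finite := V.finite_toSet.biUnion fun v _ => pc_finite n c v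
  refine ⟨n + 4, by omega, hfin.toFinset, ?_, ?_, ?_⟩
  · intro t ht
    rw [Set.Finite.mem_toFinset, mem_iUnion₂] at ht
    obtain ⟨v, hv, ht⟩ := ht
    exact pc_valid n c (hVD v hv) ht
  · have h1 : (⋃ t ∈ hfin.toFinset, nn (n + 4) t) ⊆ ⋃ v ∈ V, ⋃ t ∈ pc n c v, nn (n + 4) t := by
      intro p hp
      rw [mem_iUnion₂] at hp
      obtain ⟨t, ht, hp⟩ := hp
      rw [Set.Finite.mem_toFinset, mem_iUnion₂] at ht
      obtain ⟨v, hv, ht⟩ := ht
      exact mem_iUnion₂.mpr ⟨v, hv, mem_iUnion₂.mpr ⟨t, ht, hp⟩⟩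
    calc volume (⋃ t ∈ hfin.toFinset, nn (n + 4) t)
        ≤ volume (⋃ v ∈ V, ⋃ t ∈ pc n c v, nn (n + 4) t) := measure_mono h1
      _ ≤ ∑ v ∈ V, volume (⋃ t ∈ pc n c v, nn (n + 4) t) := measure_biUnion_finset_le _ _
      _ ≤ ∑ v ∈ V, ENNReal.ofReal (3 * (1 / 81 * i)) := by
          refine Finset.sum_le_sum fun v hv => ?_
          refine (pc_inn n c (hVD v hv)).trans (le_of_eq ?_)
          rw [hvI, ENNReal.ofReal_mul (by norm_num : (0 : ℝ) ≤ 3)]
          norm_num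
      _ = ENNReal.ofReal (V.card * (3 * (1 / 81 * i))) := by
          rw [Finset.sum_const, nsmul_eq_mul, ENNReal.ofReal_mul (Nat.cast_nonneg V.card),
            ENNReal.ofReal_natCast]
      _ ≤ ENNReal.ofReal ε := by
          apply ENNReal.ofReal_le_ofReal
          have h2 : (V.card : ℝ) ≤ (9 / 8) / δ + 1 := by
            have : (V.card : ℝ) ≤ k := by exact_mod_cast hVk
            linarith
          have h3 : i ≤ e / R := by
            rw [le_div_iff₀ hRpos]; linarith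
          calc (V.card : ℝ) * (3 * (1 / 81 * i)) ≤ ((9 / 8) / δ + 1) * (3 * (1 / 81 * (e / R))) := by
                apply mul_le_mul h2 (by linarith) (by positivity) (by positivity)
            _ = (3 * ((9 / 8) * (19 / 8) / η + 1 / 81 * e)) / R := by
                rw [hδ]; field_simp
            _ ≤ (3 * ((9 / 8) * (19 / 8) / η + 1)) / R := by
                apply div_le_div_of_nonneg_right _ hRpos.le
                linarith
            _ = ε := by
                rw [hR]; field_simp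
  · have h1 : Om \ ⋃ t ∈ hfin.toFinset, cv (n + 4) t ⊆ Unc (sc (US n c 0 1)) V := by
      rintro p ⟨hp, hnot⟩
      refine ⟨hp, fun h => hnot ?_⟩
      rw [mem_iUnion₂] at h
      obtain ⟨v, hv, h⟩ := h
      have h2 := pc_cov n c v ⟨hp, h⟩
      rw [mem_iUnion₂] at h2 ⊢
      obtain ⟨t, ht, h2⟩ := h2
      exact ⟨t, by rw [Set.Finite.mem_toFinset]; exact mem_iUnion₂.mpr ⟨v, hv, ht⟩, h2⟩
    refine (measure_mono h1).trans ?_
    rw [← ENNReal.ofReal_toReal (Unc_ne_top _ V)]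
    exact ENNReal.ofReal_le_ofReal hVη

end Pool.Agent.Cantor305
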