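import Pool.Agent.Cantor305.Rand

set_option autoImplicit false

open MeasureTheory Set

namespace Pool.Agent.Cantor305

/-- the potential -/
noncomputable def phi (p : ℝ) : ℝ := 2 * p / (2 - p)

theorem phi_nonneg {p : ℝ} (h0 : 0 ≤ p) (h1 : p ≤ 1) : 0 ≤ phi p :=
  div_nonneg (by linarith) (by linarith)

theorem le_phi {p : ℝ} (h0 : 0 ≤ p) (h1 : p ≤ 1) : p ≤ phi p := by
  unfold phi
  rw [le_div_iff₀ (by linarith)]
  nlinarith

theorem phi_le {p : ℝ} (h0 : 0 ≤ p) (h1 : p ≤ 1) : phi p ≤ 2 := by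
  unfold phi
  rw [div_le_iff₀ (by linarith)]
  linarith

theorem phi_two {a b : ℝ} (ha0 : 0 ≤ a) (ha1 : a ≤ 1) (hb0 : 0 ≤ b) (hb1 : b ≤ 1) :
    phi (1 - (1 - a) * (1 - b)) ≤ phi a + phi b := by
  have hp : 1 - (1 - a) * (1 - b) = a + b - a * b := by ring
  have hab : 0 ≤ a * b := mul_nonneg ha0 hb0
  have hp0 : 0 ≤ a + b - a * b := by nlinarith
  have hp1 : a + b - a * b ≤ 1 := by nlinarith [mul_nonneg (sub_nonneg.mpr ha1) (sub_nonneg.mpr hb1)]
  rw [hp]
  unfold phi
  rw [div_add_div _ _ (by linarith) (by linarith), div_le_div_iff₀ (by linarith)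
    (mul_pos (by linarith) (by linarith))]
  have key : (2 * a * (2 - b) + (2 - a) * (2 * b)) * (2 - (a + b - a * b)) -
      2 * (a + b - a * b) * ((2 - a) * (2 - b)) = 2 * (a + b - a * b) * (a * b) := by ring
  have := mul_nonneg hp0 hab
  linarith

theorem phi_three {p : Fin 3 → ℝ} (h0 : ∀ d, 0 ≤ p d) (h1 : ∀ d, p d ≤ 1) :
    phi (1 - ∏ d : Fin 3, (1 - p d)) ≤ ∑ d : Fin 3, phi (p d) := by
  rw [Fin.prod_univ_three, Fin.sum_univ_three]
  have e : 1 - (1 - p 0) * (1 - p 1) * (1 - p 2) =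
      1 - (1 - (1 - (1 - p 0) * (1 - p 1))) * (1 - p 2) := by ring
  have hq0 : 0 ≤ 1 - (1 - p 0) * (1 - p 1) := by
    nlinarith [h0 0, h0 1, h1 0, h1 1, mul_nonneg (sub_nonneg.mpr (h1 0)) (h0 1)]
  have hq1 : 1 - (1 - p 0) * (1 - p 1) ≤ 1 := by
    nlinarith [mul_nonneg (sub_nonneg.mpr (h1 0)) (sub_nonneg.mpr (h1 1))]
  rw [e]
  have h2 := phi_two hq0 hq1 (h0 2) (h1 2)
  have h3 := phi_two (h0 0) (h1 0) (h0 1) (h1 1)
  linarith

theorem phi_half {q : ℝ} (h0 : 0 ≤ q) (h1 : q ≤ 1) :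
    phi (q / 2) ≤ (phi q - phi q ^ 2 / 6) / 2 := by
  have hF0 := phi_nonneg h0 h1
  have hF2 := phi_le h0 h1
  have hq : q = 2 * phi q / (2 + phi q) := by
    unfold phi
    have : (2 : ℝ) - q ≠ 0 := by linarith
    field_simp
    ring
  set F := phi q with hF
  have h4 : phi (q / 2) = 2 * F / (4 + F) := by
    rw [hq]
    unfold phi
    have h5 : (2 : ℝ) + F ≠ 0 := by linarith
    have h6 : (4 : ℝ) + F ≠ 0 := by linarith
    have h7 : 2 - 2 * F / (2 + F) / 2 = (4 + F) / (2 + F) := by field_simp; ring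
    rw [h7]
    field_simp
  rw [h4, div_le_iff₀ (by linarith)]
  nlinarith [mul_nonneg (sq_nonneg F) (sub_nonneg.mpr hF2)]

theorem phi_zero : phi 0 = 0 := by simp [phi]

/-- the potential of the covering probability -/
noncomputable def F (n : ℕ) (x y : ℝ) : ℝ := phi (P n x y)

theorem F_nonneg (n : ℕ) (x y : ℝ) : 0 ≤ F n x y := phi_nonneg (P_nonneg n x y) (P_le n x y)

theorem F_le (n : ℕ) (x y : ℝ) : F n x y ≤ 2 := phi_le (P_nonneg n x y) (P_le n x y)

theorem F_supp (n : ℕ) {x y : ℝ} (hx : 0 ≤ x) (h : F n x y ≠ 0) : 0 ≤ y ∧ y < 1 + x := by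
  apply P_supp n hx
  intro h0
  apply h
  unfold F
  rw [h0, phi_zero]

theorem F_meas (n : ℕ) (x : ℝ) : Measurable (fun y => F n x y) := by
  unfold F phi
  exact ((P_meas' n x).const_mul 2).div (measurable_const.sub (P_meas' n x))

theorem F_int (n : ℕ) {x : ℝ} (hx : 0 ≤ x) : Integrable (fun y => F n x y) := by
  refine int_of (B := 2) (a := 0) (b := 1 + x) (F_meas n x) (fun y => ?_) fun y hy => ?_
  · rw [abs_of_nonneg (F_nonneg n x y)]; exact F_le n x y
  · by_contra h
    have := F_supp n hx h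
    exact hy ⟨this.1, this.2.le⟩

theorem F_sq_int (n : ℕ) {x : ℝ} (hx : 0 ≤ x) : Integrable (fun y => F n x y ^ 2) := by
  refine int_of (B := 2 ^ 2) (a := 0) (b := 1 + x) ((F_meas n x).pow_const 2)
    (fun y => ?_) fun y hy => ?_
  · rw [abs_of_nonneg (by positivity)]
    exact pow_le_pow_left₀ (F_nonneg n x y) (F_le n x y) 2
  · by_contra h
    have h' : F n x y ≠ 0 := by
      intro h0; rw [h0] at h; simp at h
    have := F_supp n hx h'
    exact hy ⟨this.1, this.2.le⟩

/-- the function which controls the children -/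
noncomputable def G (n : ℕ) (x y : ℝ) : ℝ := (F n x y - F n x y ^ 2 / 6) / 2

theorem G_int (n : ℕ) {x : ℝ} (hx : 0 ≤ x) : Integrable (fun y => G n x y) :=
  ((F_int n hx).sub ((F_sq_int n hx).div_const 6)).div_const 2

theorem G_nonneg (n : ℕ) (x y : ℝ) : 0 ≤ G n x y := by
  unfold G
  nlinarith [F_nonneg n x y, F_le n x y, mul_nonneg (F_nonneg n x y) (sub_nonneg.mpr (F_le n x y))]

theorem pd_nonneg (n : ℕ) (x y : ℝ) (d : Fin 3) : 0 ≤ pd n x y d := by
  unfold pd
  have := P_nonneg n x (3 * y - (d : ℕ))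
  have := P_nonneg n x (3 * y - (d : ℕ) - 2 * x)
  linarith

theorem pd_le (n : ℕ) (x y : ℝ) (d : Fin 3) : pd n x y d ≤ 1 := by
  unfold pd
  have := P_le n x (3 * y - (d : ℕ))
  have := P_le n x (3 * y - (d : ℕ) - 2 * x)
  linarith

theorem phi_pd (n : ℕ) {x : ℝ} (hx : 1 ≤ x) (y : ℝ) (d : Fin 3) :
    phi (pd n x y d) ≤ G n x (3 * y - (d : ℕ)) + G n x (3 * y - (d : ℕ) - 2 * x) := by
  unfold pd
  set u := 3 * y - ((d : ℕ) : ℝ)
  by_cases h : P n x u = 0
  · rw [h, zero_add]
    have h1 := phi_half (P_nonneg n x (u - 2 * x)) (P_le n x (u - 2 * x))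
    have h2 := G_nonneg n x u
    have h3 : G n x (u - 2 * x) =
      (phi (P n x (u - 2 * x)) - phi (P n x (u - 2 * x)) ^ 2 / 6) / 2 := rfl
    linarith
  · have h' := P_supp n (by linarith) h
    have h4 : P n x (u - 2 * x) = 0 := by
      by_contra h5
      have := P_supp n (by linarith) h5
      linarith [this.1, h'.2]
    rw [h4, add_zero]
    have h1 := phi_half (P_nonneg n x u) (P_le n x u)
    have h2 := G_nonneg n x (u - 2 * x)
    have h3 : G n x u = (phi (P n x u) - phi (P n x u) ^ 2 / 6) / 2 := rfl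
    linarith

theorem F_rec (n : ℕ) {x : ℝ} (hx : 1 ≤ x) (y : ℝ) : F (n + 1) x y ≤
    ∑ d : Fin 3, (G n x (3 * y - (d : ℕ)) + G n x (3 * y - ((d : ℕ) + 2 * x))) := by
  unfold F
  rw [P_rec]
  refine (phi_three (pd_nonneg n x y) (pd_le n x y)).trans (Finset.sum_le_sum fun d _ => ?_)
  have := phi_pd n hx y d
  rwa [sub_sub (3 * y)] at this

/-- the integral of the potential -/
noncomputable def J (n : ℕ) (x : ℝ) : ℝ := ∫ y, F n x y

theorem J_rec (n : ℕ) {x : ℝ} (hx : 1 ≤ x) : J (n + 1) x ≤ J n x - J n x ^ 2 / (6 * (1 + x)) := by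
  have hx0 : 0 ≤ x := by linarith
  have hint : ∀ d : Fin 3, Integrable (fun y : ℝ =>
      G n x (3 * y - (d : ℕ)) + G n x (3 * y - ((d : ℕ) + 2 * x))) := fun d =>
    (cov_int (G_int n hx0) _).add (cov_int (G_int n hx0) _)
  have h1 : J (n + 1) x ≤ 2 * ∫ y, G n x y := by
    calc J (n + 1) x ≤ ∫ y, ∑ d : Fin 3,
          (G n x (3 * y - (d : ℕ)) + G n x (3 * y - ((d : ℕ) + 2 * x))) := by
          apply integral_mono (F_int (n + 1) hx0)
          · exact integrable_finsetSum _ fun d _ => hint d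
          · exact fun y => F_rec n hx y
      _ = ∑ d : Fin 3, (1 / 3 * (∫ y, G n x y) + 1 / 3 * ∫ y, G n x y) := by
          rw [integral_finsetSum _ fun d _ => hint d]
          refine Finset.sum_congr rfl fun d _ => ?_
          rw [integral_add (cov_int (G_int n hx0) _) (cov_int (G_int n hx0) _), cov, cov]
      _ = 2 * ∫ y, G n x y := by simp; ring
  have h2 : 2 * ∫ y, G n x y = J n x - (∫ y, F n x y ^ 2) / 6 := by
    unfold G J
    rw [integral_div, integral_sub (F_int n hx0) ((F_sq_int n hx0).div_const 6), integral_div]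
    ring
  have h3 : J n x ^ 2 / (1 + x) ≤ ∫ y, F n x y ^ 2 := by
    set l := J n x / (1 + x) with hl
    have hM : 0 < 1 + x := by linarith
    have hind : Integrable (fun y : ℝ => indicator (Icc (0 : ℝ) (1 + x)) (fun _ => (1 : ℝ)) y) :=
      (integrable_indicator_iff measurableSet_Icc).mpr (by simp)
    have h4 : ∫ y, (2 * l * F n x y - l ^ 2 * indicator (Icc (0 : ℝ) (1 + x)) (fun _ => (1 : ℝ)) y)
        ≤ ∫ y, F n x y ^ 2 := by
      apply integral_mono (((F_int n hx0).const_mul _).sub (hind.const_mul _)) (F_sq_int n hx0)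
      intro y
      show 2 * l * F n x y - l ^ 2 * indicator (Icc (0 : ℝ) (1 + x)) (fun _ => (1 : ℝ)) y ≤
        F n x y ^ 2
      by_cases hy : y ∈ Icc (0 : ℝ) (1 + x)
      · rw [indicator_of_mem hy]
        nlinarith [sq_nonneg (F n x y - l)]
      · rw [indicator_of_notMem hy]
        have : F n x y = 0 := by
          by_contra h
          have := F_supp n hx0 h
          exact hy ⟨this.1, this.2.le⟩
        rw [this]; simp
    rw [integral_sub ((F_int n hx0).const_mul _) (hind.const_mul _), integral_const_mul,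
      integral_const_mul, integral_indicator measurableSet_Icc] at h4
    have h5 : ∫ _ in Icc (0 : ℝ) (1 + x), (1 : ℝ) = 1 + x := by
      simp [Real.volume_real_Icc_of_le hM.le]
    rw [h5] at h4
    have h6 : 2 * l * (∫ y, F n x y) - l ^ 2 * (1 + x) = J n x ^ 2 / (1 + x) := by
      show 2 * l * J n x - l ^ 2 * (1 + x) = _
      rw [hl]; field_simp; ring
    linarith
  have h7 : J n x ^ 2 / (6 * (1 + x)) = J n x ^ 2 / (1 + x) / 6 := by
    rw [div_div, mul_comm]
  rw [h7]
  linarith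

theorem J_nonneg (n : ℕ) (x : ℝ) : 0 ≤ J n x := integral_nonneg fun y => F_nonneg n x y

theorem J_zero (x : ℝ) (hx : 1 ≤ x) : J 0 x ≤ 2 * (1 + x) := by
  have hx0 : 0 ≤ x := by linarith
  have hM : 0 < 1 + x := by linarith
  have hind : Integrable (fun y : ℝ => indicator (Icc (0 : ℝ) (1 + x)) (fun _ => (1 : ℝ)) y) :=
      (integrable_indicator_iff measurableSet_Icc).mpr (by simp)
  have h4 : J 0 x ≤ ∫ y, 2 * indicator (Icc (0 : ℝ) (1 + x)) (fun _ => (1 : ℝ)) y := by
    apply integral_mono (F_int 0 hx0) (hind.const_mul _)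
    intro y
    show F 0 x y ≤ 2 * indicator (Icc (0 : ℝ) (1 + x)) (fun _ => (1 : ℝ)) y
    by_cases hy : y ∈ Icc (0 : ℝ) (1 + x)
    · rw [indicator_of_mem hy]; linarith [F_le 0 x y]
    · rw [indicator_of_notMem hy]
      have : F 0 x y = 0 := by
        by_contra h
        have := F_supp 0 hx0 h
        exact hy ⟨this.1, this.2.le⟩
      rw [this]; simp
  rw [integral_const_mul, integral_indicator measurableSet_Icc] at h4
  have h5 : ∫ _ in Icc (0 : ℝ) (1 + x), (1 : ℝ) = 1 + x := by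
    simp [Real.volume_real_Icc_of_le hM.le]
  rwa [h5] at h4

theorem rec_bound {a : ℝ} (ha : 0 < a) {u : ℕ → ℝ} (h0 : ∀ n, 0 ≤ u n) (h00 : u 0 ≤ a)
    (h : ∀ n, u (n + 1) ≤ u n - u n ^ 2 / a) (n : ℕ) : u n ≤ a / (n + 1) := by
  induction n with
  | zero => simpa using h00
  | succ n ih =>
    rcases Nat.eq_zero_or_pos n with rfl | hn
    · have h1 := h 0
      have h2 : u 0 - u 0 ^ 2 / a ≤ a / 4 := by
        rw [sub_le_iff_le_add, ← sub_le_iff_le_add', le_div_iff₀ ha]
        nlinarith [sq_nonneg (u 0 - a / 2)]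
      have h3 : a / 4 ≤ a / ((0 + 1 : ℕ) + 1) := by
        apply div_le_div_of_nonneg_left ha.le (by norm_num) (by norm_num)
      exact (h1.trans h2).trans h3
    · have h1 := h n
      have hn1 : (1 : ℝ) ≤ n := by exact_mod_cast hn
      set t := a / ((n : ℝ) + 1) with ht
      have ht2 : t ≤ a / 2 := div_le_div_of_nonneg_left ha.le (by norm_num) (by linarith)
      have h2 : u n - u n ^ 2 / a ≤ t - t ^ 2 / a := by
        have h3 : (t - t ^ 2 / a) - (u n - u n ^ 2 / a) = (t - u n) * (a - t - u n) / a := by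
          field_simp; ring
        have h4 : 0 ≤ (t - u n) * (a - t - u n) / a :=
          div_nonneg (mul_nonneg (by linarith) (by linarith)) ha.le
        linarith
      have h5 : t - t ^ 2 / a ≤ a / (((n + 1 : ℕ) : ℝ) + 1) := by
        have h6 : t - t ^ 2 / a = a * n / ((n : ℝ) + 1) ^ 2 := by
          rw [ht]; field_simp; ring
        rw [h6, div_le_div_iff₀ (by positivity) (by positivity)]
        push_cast
        nlinarith
      linarith

/-- **upper bound** -/
theorem upper (n : ℕ) {x : ℝ} (hx : 1 ≤ x) : ∫ y, P n x y ≤ 6 * (1 + x) / (n + 1) := by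
  have h1 : ∫ y, P n x y ≤ J n x := by
    apply integral_mono (P_int n (by linarith)) (F_int n (by linarith))
    intro y
    exact le_phi (P_nonneg n x y) (P_le n x y)
  refine h1.trans (rec_bound (a := 6 * (1 + x)) (by linarith) (fun n => J_nonneg n x) ?_
    (fun n => J_rec n hx) n)
  have := J_zero x hx
  linarith

end Pool.Agent.Cantor305
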